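import Pool.Agent.Lib.MP_abd978_an.UN.H30.Alg
import Pool.Agent.Lib.MP_abd978_an.UN.H26.Step

/-!
# BADE: bad components
-/

set_option autoImplicit false

open MeasureTheory Metric Set Filter Topology ContDiff
open scoped Gradient RealInnerProductSpace NNReal ENNReal

namespace Pool.Agent.Lib.MP_abd978_an.UN.H10B

open H30 H26

variable {N : ℕ}

/-- Disjoint sets with bounded overlap. -/
theorem countg {n : ℕ} {s : Finset (E n)} {t : E n → Finset (E n)} {B : E n → E n → Set (E n)}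
    {U : Set (E n)} {C : ℝ} {g : E n → ℝ} (hg0 : ∀ x, 0 ≤ g x) (hU : MeasurableSet U)
    (hg : IntegrableOn g U)
    (hB : ∀ z ∈ s, ∀ y ∈ t z, MeasurableSet (B z y))
    (hBU : ∀ z ∈ s, ∀ y ∈ t z, B z y ⊆ U)
    (hd : ∀ z ∈ s, (t z : Set (E n)).PairwiseDisjoint (B z))
    (hC : ∀ (x : E n) (s' : Finset (E n)), s' ⊆ s → (∀ z ∈ s', ∃ y ∈ t z, x ∈ B z y) →
      (s'.card : ℝ) ≤ C) :
    ∑ z ∈ s, ∑ y ∈ t z, ∫ x in B z y, g x ≤ C * ∫ x in U, g x := by
  classical
  have hC0 : 0 ≤ C := by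
    have := hC 0 ∅ (Finset.empty_subset _) (by simp)
    simpa using this
  have hpt0 : ∀ x ∈ U, ∑ z ∈ s, ∑ y ∈ t z, (B z y).indicator (fun _ => (1 : ℝ)) x ≤ C := by
    intro x hx
    have h1 : ∀ z ∈ s, ∑ y ∈ t z, (B z y).indicator (fun _ => (1 : ℝ)) x ≤
        if (∃ y ∈ t z, x ∈ B z y) then 1 else 0 := by
      intro z hz
      by_cases h : ∃ y ∈ t z, x ∈ B z y
      · rw [if_pos h]
        obtain ⟨y₀, hy₀, hxy⟩ := h
        rw [Finset.sum_eq_single_of_mem y₀ hy₀, indicator_of_mem hxy]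
        intro y hy hne
        refine indicator_of_notMem (fun hxy' => ?_) _
        exact (Set.disjoint_left.1 (hd z hz (Finset.mem_coe.2 hy) (Finset.mem_coe.2 hy₀) hne)
          hxy') hxy
      · rw [if_neg h]
        refine le_of_eq (Finset.sum_eq_zero fun y hy => indicator_of_notMem (fun hxy => ?_) _)
        exact h ⟨y, hy, hxy⟩
    refine (Finset.sum_le_sum h1).trans ?_
    rw [Finset.sum_boole]
    refine hC x _ (Finset.filter_subset _ _) fun z hz => ?_
    exact (Finset.mem_filter.1 hz).2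
  have hpt : ∀ x, ∑ z ∈ s, ∑ y ∈ t z, (B z y).indicator g x ≤
      U.indicator (fun x => C * g x) x := by
    intro x
    by_cases hx : x ∈ U
    · rw [indicator_of_mem hx]
      have h1 : ∑ z ∈ s, ∑ y ∈ t z, (B z y).indicator g x =
          (∑ z ∈ s, ∑ y ∈ t z, (B z y).indicator (fun _ => (1 : ℝ)) x) * g x := by
        rw [Finset.sum_mul]
        refine Finset.sum_congr rfl fun z _ => ?_
        rw [Finset.sum_mul]
        refine Finset.sum_congr rfl fun y _ => ?_
        by_cases h : x ∈ B z y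
        · rw [indicator_of_mem h, indicator_of_mem h, one_mul]
        · rw [indicator_of_notMem h, indicator_of_notMem h, zero_mul]
      rw [h1]
      exact mul_le_mul_of_nonneg_right (hpt0 x hx) (hg0 x)
    · rw [indicator_of_notMem hx]
      refine le_of_eq (Finset.sum_eq_zero fun z hz => Finset.sum_eq_zero fun y hy => ?_)
      exact indicator_of_notMem (fun h => hx (hBU z hz y hy h)) _
  have hi : ∀ z ∈ s, ∀ y ∈ t z, Integrable ((B z y).indicator g) := by
    intro z hz y hy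
    rw [integrable_indicator_iff (hB z hz y hy)]
    exact hg.mono_set (hBU z hz y hy)
  have hi2 : Integrable (U.indicator fun x : E n => C * g x) := by
    rw [integrable_indicator_iff hU]
    exact hg.const_mul C
  have h2 : ∫ x, ∑ z ∈ s, ∑ y ∈ t z, (B z y).indicator g x =
      ∑ z ∈ s, ∑ y ∈ t z, ∫ x in B z y, g x := by
    rw [integral_finsetSum _ fun z hz => integrable_finsetSum _ fun y hy => hi z hz y hy]
    refine Finset.sum_congr rfl fun z hz => ?_
    rw [integral_finsetSum _ fun y hy => hi z hz y hy]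
    refine Finset.sum_congr rfl fun y hy => ?_
    rw [integral_indicator (hB z hz y hy)]
  have h3 : ∫ x, U.indicator (fun x => C * g x) x = C * ∫ x in U, g x := by
    rw [integral_indicator hU, integral_const_mul]
  rw [← h2, ← h3]
  exact integral_mono (integrable_finsetSum _ fun z hz => integrable_finsetSum _ fun y hy =>
    hi z hz y hy) hi2 hpt

theorem abs_bdet_le_prod (v : Fin (N + 1) → E (N + 1)) :
    |bdet N v| ≤ (Nat.factorial (N + 1) : ℝ) * ∏ k, ‖v k‖ := by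
  rw [bdet_apply, Matrix.det_apply]
  refine (Finset.abs_sum_le_sum_abs _ _).trans ?_
  have h1 : ∀ σ ∈ (Finset.univ : Finset (Equiv.Perm (Fin (N + 1)))),
      |Equiv.Perm.sign σ • ∏ i, (Matrix.of fun i j => v j i) (σ i) i| ≤ ∏ k, ‖v k‖ := by
    intro σ _
    have h2 : |Equiv.Perm.sign σ • ∏ i, (Matrix.of fun i j => v j i) (σ i) i| =
        |∏ i, (Matrix.of fun i j => v j i) (σ i) i| := by
      rcases Int.units_eq_one_or (Equiv.Perm.sign σ) with h | h
      · rw [h, one_smul]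
      · rw [h]; simp
    rw [h2, Finset.abs_prod]
    refine Finset.prod_le_prod (fun _ _ => abs_nonneg _) fun k _ => ?_
    exact PiLp.norm_apply_le (v k) (σ k)
  refine (Finset.sum_le_sum h1).trans (le_of_eq ?_)
  rw [Finset.sum_const, Finset.card_univ, Fintype.card_perm, Fintype.card_fin, nsmul_eq_mul]

theorem norm_Dt {n : ℕ} (f : E n → E n) (y : E n) : ‖Dt f y‖ = ‖fderiv ℝ f y‖ := by
  unfold Dt
  rw [LinearIsometryEquiv.norm_map]

theorem abs_mdet2_prod (f : E (N + 1) → E (N + 1)) (y : E (N + 1))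
    (w : Fin N → Fin (N + 1) ⊕ Fin (N + 1)) (i : Fin N) (j : Fin (N + 1))
    (hwi : w i = Sum.inl j) (v v' : E (N + 1)) :
    |mdet2 f y w i v v'| ≤
      (Nat.factorial (N + 1) : ℝ) * (‖v‖ * (‖v'‖ * ‖fderiv ℝ f y‖ ^ (N - nl w))) := by
  unfold mdet2
  refine (abs_bdet_le_prod _).trans (mul_le_mul_of_nonneg_left ?_ (by positivity))
  rw [Fin.prod_univ_succ]
  simp only [Fin.cons_zero, Fin.cons_succ]
  refine mul_le_mul_of_nonneg_left ?_ (norm_nonneg _)
  have hb : ∀ k : Fin N, ‖Function.update (fun k => col f y (w k)) i v' k‖ ≤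
      (if k = i then ‖v'‖ else 1) * (if (w k).isLeft = true then 1 else ‖fderiv ℝ f y‖) := by
    intro k
    by_cases hk : k = i
    · subst hk
      rw [Function.update_self, if_pos rfl, hwi]
      simp
    · rw [Function.update_of_ne hk, if_neg hk, one_mul]
      rcases hwk : w k with j' | l
      · simp [col]
      · simp only [col, Sum.isLeft_inr, Bool.false_eq_true, if_false]
        refine (ContinuousLinearMap.le_opNorm _ _).trans ?_
        rw [norm_Dt]
        simp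
  refine (Finset.prod_le_prod (fun _ _ => norm_nonneg _) fun k _ => hb k).trans (le_of_eq ?_)
  rw [Finset.prod_mul_distrib, Finset.prod_ite_eq' Finset.univ i, if_pos (Finset.mem_univ i)]
  congr 1
  rw [Finset.prod_ite, Finset.prod_const_one, one_mul, Finset.prod_const]
  congr 1
  have h1 := Finset.card_filter_add_card_filter_not (s := (Finset.univ : Finset (Fin N)))
    (fun k => (w k).isLeft = true)
  rw [Finset.card_univ, Fintype.card_fin] at h1
  unfold nl
  omega

theorem nl_le (w : Fin N → Fin (N + 1) ⊕ Fin (N + 1)) : nl w ≤ N := by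
  unfold nl
  refine (Finset.card_filter_le _ _).trans ?_
  rw [Finset.card_univ, Fintype.card_fin]

theorem nl_pos (w : Fin N → Fin (N + 1) ⊕ Fin (N + 1)) {i : Fin N} {j : Fin (N + 1)}
    (hwi : w i = Sum.inl j) : 1 ≤ nl w := by
  unfold nl
  rw [Nat.one_le_iff_ne_zero, Finset.card_ne_zero]
  exact ⟨i, Finset.mem_filter.2 ⟨Finset.mem_univ i, by rw [hwi]; rfl⟩⟩

/-- the set on which the integrand lives -/
def TS (f : E (N + 1) → E (N + 1)) (K A : Set (E (N + 1))) (z : E (N + 1)) (ε : ℝ) :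
    Set (E (N + 1)) :=
  {x | (x ∈ K ∧ x ∉ A ∧ fderiv ℝ f x ≠ 0) ∧ dist (f x) z ≤ ε / 2}

theorem bade (hgeo : GeoStatement) : BadeStatement := by
  classical
  intro N p Ω f σ hS hσ w i j φ K C₁ hwi hφ hK hKΩ hφK hC₁
  obtain ⟨⟨Kφ, hKφ⟩, hcs, hsub⟩ := hφ
  obtain ⟨Λ₀, hΛ₀, hΛ⟩ := fderiv_bdd hS.loclip hK hKΩ
  obtain ⟨Cσ, hCσ⟩ := hσ.bound
  obtain ⟨G, CG, hG, hGΩ, hCG, hgeo1⟩ := hgeo N p Ω f hS K hK hKΩ
  have hN0 : (0 : ℝ) ≤ N := Nat.cast_nonneg N
  have hpN1 := hS.hp
  have hp1 : 1 < p := by linarith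
  have hp0 : 0 < p := by linarith
  set l : ℕ := nl w with hl
  have hlN : l ≤ N := nl_le w
  have hl1 : 1 ≤ l := nl_pos w hwi
  have hlN' : (l : ℝ) ≤ N := by exact_mod_cast hlN
  have hl1' : (1 : ℝ) ≤ l := by exact_mod_cast hl1
  have hpl : 0 < p - l := by linarith
  have hpNN : 0 < p - N := by linarith
  set Λ : ℝ := max 1 Λ₀ with hΛdef
  have hΛ1 : 1 ≤ Λ := le_max_left _ _
  have hΛ0 : 0 < Λ := by linarith
  have hΛb : ∀ y ∈ K, ‖fderiv ℝ f y‖ ≤ Λ := fun y hy => (hΛ y hy).trans (le_max_right _ _)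
  have hpN : 0 < p - ((N : ℝ) + 1) := by linarith
  -- constants
  set F : ℝ := (Nat.factorial (N + 1) : ℝ) with hF
  have hF0 : 0 ≤ F := by positivity
  set B₁ : ℝ := |Cσ| * Λ ^ (p - ((N : ℝ) + 1)) * (F * (Kφ * (1 * Λ ^ (N - l)))) with hB₁
  have hB₁0 : 0 ≤ B₁ := by positivity
  set B₂ : ℝ := |Cσ| * (F * (C₁ * Kφ)) with hB₂
  have hB₂0 : 0 ≤ B₂ := by positivity
  set P : ℝ := p / (p - l) with hP
  have hP0 : 0 < P := by positivity
  have hP1 : 1 < P := by
    rw [hP, one_lt_div hpl]; linarith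
  set Q : ℝ := p / l with hQ
  have hQ0 : 0 < Q := by positivity
  have hPQ : P.HolderConjugate Q := by
    rw [Real.holderConjugate_iff]
    refine ⟨hP1, ?_⟩
    rw [hP, hQ, inv_div, inv_div, ← add_div]
    rw [div_eq_one_iff_eq hp0.ne']; ring
  have h1P : 1 / P = (p - l) / p := by rw [hP, one_div_div]
  have h1Q : 1 / Q = (l : ℝ) / p := by rw [hQ, one_div_div]
  set Γ : ℝ := C₁ * (∫ x in K, ‖fderiv ℝ f x‖ ^ p) + CG * (C₁ * volume.real G) with hΓ
  have hK0 : 0 ≤ ∫ x in K, ‖fderiv ℝ f x‖ ^ p :=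
    integral_nonneg fun x => Real.rpow_nonneg (norm_nonneg _) _
  have hΓ0 : 0 ≤ Γ := by positivity
  refine ⟨B₁ * C₁ + B₂ * (Γ ^ (1 / P) * C₁ ^ (1 / Q)) + 1, by positivity, ?_⟩
  intro ε s ψ L t A hε hPU hA ht hdisj hbad
  -- measurability
  have hfc : ContinuousOn f Ω := fun x' hx' =>
    (LLip.continuousAt (f := f) (hS.loclip x' hx')).continuousWithinAt
  have hWm : ∀ z y, MeasurableSet (Cp Ω f z ε y) := by
    intro z y
    have hU : IsOpen (Ω ∩ f ⁻¹' ball z ε) := hfc.isOpen_inter_preimage hS.isOpen isOpen_ball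
    exact hU.connectedComponentIn.measurableSet
  have hDm : Measurable fun x => fderiv ℝ f x := measurable_fderiv ℝ f
  have hKm : MeasurableSet K := hK.measurableSet
  have hVm : MeasurableSet {x | x ∈ K ∧ x ∉ A ∧ fderiv ℝ f x ≠ 0} :=
    hKm.inter (hA.compl.inter (hDm (measurableSet_singleton 0).compl))
  have hTm : ∀ z, MeasurableSet (TS f K A z ε) := by
    intro z
    refine hVm.inter ?_
    have h1 : Measurable fun x => dist (f x) z := hS.meas.dist measurable_const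
    exact measurableSet_le h1 measurable_const
  have hKf : volume K ≠ ⊤ := hK.measure_lt_top.ne
  have hTK : ∀ z, TS f K A z ε ⊆ K := fun z x hx => hx.1.1
  set V : Set (E (N + 1)) := {x | x ∈ K ∧ x ∉ A ∧ fderiv ℝ f x ≠ 0} with hVdef
  have hVK : V ⊆ K := fun x hx => hx.1
  -- integrability of powers
  have hpow : ∀ r : ℝ, 0 ≤ r → IntegrableOn (fun x => ‖fderiv ℝ f x‖ ^ r) K := by
    intro r hr
    haveI : IsFiniteMeasure (volume.restrict K) :=
      ⟨by rw [Measure.restrict_apply_univ]; exact hK.measure_lt_top⟩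
    refine Integrable.of_bound (hDm.norm.pow_const r).aestronglyMeasurable (Λ ^ r) ?_
    filter_upwards [ae_restrict_mem hKm] with x hx
    rw [Real.norm_of_nonneg (Real.rpow_nonneg (norm_nonneg _) _)]
    exact Real.rpow_le_rpow (norm_nonneg _) (hΛb x hx) hr
  -- abbreviations
  obtain ⟨δ, hδ⟩ : ∃ δ : E (N + 1) → E (N + 1) → ℝ, ∀ z y,
    δ z y = diam (Cp Ω f z ε y ∩ K) := ⟨_, fun _ _ => rfl⟩
  have hδ0 : ∀ z y, 0 ≤ δ z y := fun z y => by rw [hδ]; exact diam_nonneg
  obtain ⟨S, hSdef⟩ : ∃ S : E (N + 1) → E (N + 1) → Set (E (N + 1)), ∀ z y,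
    S z y = Cp Ω f z ε y ∩ TS f K A z ε := ⟨_, fun _ _ => rfl⟩
  have hSm : ∀ z y, MeasurableSet (S z y) := fun z y => by
    rw [hSdef]; exact (hWm z y).inter (hTm z)
  have hSK : ∀ z y, S z y ⊆ K := fun z y => by
    rw [hSdef]; exact inter_subset_right.trans (hTK z)
  -- the pointwise bound
  have hpt : ∀ z ∈ s, ∀ y ∈ t z, ∀ᵐ x ∂(volume.restrict (Cp Ω f z ε y)),
      ‖σ x * (ψ z (f x) * mdet2 f x w i (∇ φ x) (EuclideanSpace.single j 1 - Dt f x 0) -
        ew f j 0 (y j) x * mdet2 f x w i (Dt f x (∇ (ψ z) (f x))) (∇ φ x))‖ ≤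
      (TS f K A z ε).indicator
        (fun x => B₁ + B₂ * (δ z y / ε) * ‖fderiv ℝ f x‖ ^ (p - l)) x := by
    intro z hz y hy
    filter_upwards [ae_restrict_mem (hWm z y), ae_restrict_of_ae hCσ] with x hxW hxσ
    have hxΩ : x ∈ Ω := ((connectedComponentIn_subset _ _) hxW).1
    by_cases hxT : x ∈ TS f K A z ε
    · rw [indicator_of_mem hxT]
      obtain ⟨⟨hxK, hxA, hxD⟩, hxd⟩ := hxT
      have hDpos : 0 < ‖fderiv ℝ f x‖ := norm_pos_iff.2 hxD
      have hgφ : ‖∇ φ x‖ ≤ Kφ := by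
        rw [norm_grad]; exact norm_fderiv_le_of_lipschitz ℝ hKφ
      have hσ1 : |σ x| ≤ |Cσ| * ‖fderiv ℝ f x‖ ^ (p - ((N : ℝ) + 1)) :=
        (hxσ hxΩ).trans (mul_le_mul_of_nonneg_right (le_abs_self Cσ)
          (Real.rpow_nonneg (norm_nonneg _) _))
      have hσ2 : |σ x| ≤ |Cσ| * Λ ^ (p - ((N : ℝ) + 1)) :=
        hσ1.trans (mul_le_mul_of_nonneg_left
          (Real.rpow_le_rpow (norm_nonneg _) (hΛb x hxK) hpN.le) (abs_nonneg _))
      have hq1 : |ψ z (f x)| ≤ 1 := by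
        have := hPU.mem z hz (f x)
        rw [abs_of_nonneg this.1]; exact this.2
      have hm1 : |mdet2 f x w i (∇ φ x) (EuclideanSpace.single j 1 - Dt f x 0)| ≤
          F * (Kφ * (1 * Λ ^ (N - l))) := by
        refine (abs_mdet2_prod f x w i j hwi _ _).trans ?_
        refine mul_le_mul_of_nonneg_left ?_ hF0
        have h1 : ‖(EuclideanSpace.single j 1 - Dt f x 0 : E (N + 1))‖ ≤ 1 := by
          rw [map_zero, sub_zero]; simp
        have h2 : ‖fderiv ℝ f x‖ ^ (N - nl w) ≤ Λ ^ (N - l) :=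
          pow_le_pow_left₀ (norm_nonneg _) (hΛb x hxK) _
        gcongr
      have hm2 : |mdet2 f x w i (Dt f x (∇ (ψ z) (f x))) (∇ φ x)| ≤
          F * ((‖fderiv ℝ f x‖ * (C₁ / ε)) * (Kφ * ‖fderiv ℝ f x‖ ^ (N - l))) := by
        refine (abs_mdet2_prod f x w i j hwi _ _).trans ?_
        refine mul_le_mul_of_nonneg_left ?_ hF0
        have h1 : ‖Dt f x (∇ (ψ z) (f x))‖ ≤ ‖fderiv ℝ f x‖ * (C₁ / ε) := by
          refine (ContinuousLinearMap.le_opNorm _ _).trans ?_
          rw [norm_Dt]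
          exact mul_le_mul_of_nonneg_left (hPU.grad z hz _) (norm_nonneg _)
        gcongr
      have hew : |ew f j 0 (y j) x| ≤ δ z y := by
        unfold ew
        rw [inner_zero_left, sub_zero]
        have h1 : x j - y j = (x - y) j := rfl
        rw [h1]
        refine (PiLp.norm_apply_le (x - y) j).trans ?_
        rw [← dist_eq_norm, hδ]
        have hyK := (ht z hz y hy).1
        have hyW : y ∈ Cp Ω f z ε y := by
          refine mem_connectedComponentIn ⟨hKΩ hyK, ?_⟩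
          change dist (f y) z < ε
          linarith [(ht z hz y hy).2]
        exact dist_le_diam_of_mem (hK.isBounded.subset inter_subset_right) ⟨hxW, hxK⟩ ⟨hyW, hyK⟩
      have e1 : ‖fderiv ℝ f x‖ ^ (p - ((N : ℝ) + 1)) *
          (‖fderiv ℝ f x‖ * ‖fderiv ℝ f x‖ ^ (N - l)) = ‖fderiv ℝ f x‖ ^ (p - l) := by
        rw [← pow_succ', ← Real.rpow_natCast, ← Real.rpow_add hDpos]
        congr 1
        push_cast [Nat.cast_sub hlN]
        ring
      rw [norm_mul]
      have e2 : ‖σ x‖ * ‖ψ z (f x) * mdet2 f x w i (∇ φ x)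
            (EuclideanSpace.single j 1 - Dt f x 0) -
          ew f j 0 (y j) x * mdet2 f x w i (Dt f x (∇ (ψ z) (f x))) (∇ φ x)‖ ≤
          |σ x| * (1 * (F * (Kφ * (1 * Λ ^ (N - l))))) +
          |σ x| * (δ z y *
            (F * ((‖fderiv ℝ f x‖ * (C₁ / ε)) * (Kφ * ‖fderiv ℝ f x‖ ^ (N - l))))) := by
        rw [← mul_add]
        refine mul_le_mul_of_nonneg_left ?_ (norm_nonneg _)
        refine (norm_sub_le _ _).trans (add_le_add ?_ ?_)
        · rw [norm_mul]
          exact mul_le_mul hq1 hm1 (abs_nonneg _) zero_le_one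
        · rw [norm_mul]
          exact mul_le_mul hew hm2 (abs_nonneg _) (hδ0 z y)
      refine e2.trans (add_le_add ?_ ?_)
      · rw [one_mul, hB₁]
        exact mul_le_mul_of_nonneg_right hσ2 (by positivity)
      · have h0 : 0 ≤ δ z y *
            (F * ((‖fderiv ℝ f x‖ * (C₁ / ε)) * (Kφ * ‖fderiv ℝ f x‖ ^ (N - l)))) := by
          have := hδ0 z y
          positivity
        refine (mul_le_mul_of_nonneg_right hσ1 h0).trans (le_of_eq ?_)
        rw [← e1, hB₂]
        ring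
    · rw [indicator_of_notMem hxT]
      refine le_of_eq ?_
      rw [norm_eq_zero]
      by_cases hD : fderiv ℝ f x = 0
      · have h1 := hxσ hxΩ
        rw [hD, norm_zero, Real.zero_rpow hpN.ne', mul_zero] at h1
        have h2 : σ x = 0 := abs_nonpos_iff.1 h1
        rw [h2, zero_mul]
      by_cases hxK : x ∈ K
      · by_cases hxd : dist (f x) z ≤ ε / 2
        · have hxA := hbad z hz y hy x hxW hxK hxd
          exact absurd ⟨⟨hxK, hxA, hD⟩, hxd⟩ hxT
        · have hns : f x ∉ tsupport (ψ z) := fun h => hxd (hPU.supp z hz h)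
          have h1 : ψ z (f x) = 0 := image_eq_zero_of_notMem_tsupport hns
          have h2 : ∇ (ψ z) (f x) = 0 := grad_eq_zero_of_notMem hns
          rw [h1, h2, map_zero, mdet2_zero_left]
          ring
      · have h0 : ∇ φ x = 0 := grad_eq_zero_of_notMem fun h => hxK (hφK h)
        rw [h0, mdet2_zero_left, mdet2_zero_right]
        ring
  -- one component
  have hone : ∀ z ∈ s, ∀ y ∈ t z, |Loc f σ w i j φ (ψ z) (Cp Ω f z ε y) 0 (y j)| ≤
      B₁ * volume.real (S z y) +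
        B₂ * ((δ z y / ε) * ∫ x in S z y, ‖fderiv ℝ f x‖ ^ (p - l)) := by
    intro z hz y hy
    have hi1 : IntegrableOn (fun x => ‖fderiv ℝ f x‖ ^ (p - l)) (S z y) :=
      (hpow _ hpl.le).mono_set (hSK z y)
    have hi0 : IntegrableOn (fun _ : E (N + 1) => B₁) (S z y) :=
      integrableOn_const (ne_top_of_le_ne_top hKf (measure_mono (hSK z y)))
    have hi2 : Integrable (fun x => B₁ + B₂ * (δ z y / ε) * ‖fderiv ℝ f x‖ ^ (p - l))
        (volume.restrict (S z y)) := hi0.add (hi1.const_mul _)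
    have hi3 : Integrable ((TS f K A z ε).indicator
        (fun x => B₁ + B₂ * (δ z y / ε) * ‖fderiv ℝ f x‖ ^ (p - l)))
        (volume.restrict (Cp Ω f z ε y)) := by
      rw [integrable_indicator_iff (hTm z), IntegrableOn, Measure.restrict_restrict (hTm z),
        inter_comm, ← hSdef]
      exact hi2
    unfold Loc
    refine (norm_integral_le_of_norm_le hi3 (hpt z hz y hy)).trans (le_of_eq ?_)
    rw [integral_indicator (hTm z), Measure.restrict_restrict (hTm z), inter_comm, ← hSdef,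
      integral_add hi0 (hi1.const_mul _), integral_const, integral_const_mul, smul_eq_mul,
      measureReal_restrict_apply_univ]
    ring
  -- overlap
  have hovl : ∀ (x : E (N + 1)) (s' : Finset (E (N + 1))), s' ⊆ s →
      (∀ z ∈ s', dist (f x) z < 2 * ε) → (s'.card : ℝ) ≤ C₁ :=
    fun x s' hs' h => hPU.ovl (f x) s' hs' h
  have hCpd : ∀ z y x, x ∈ Cp Ω f z ε y → dist (f x) z < ε := fun z y x hx =>
    ((connectedComponentIn_subset _ _) hx).2
  have hdS : ∀ z ∈ s, (t z : Set (E (N + 1))).PairwiseDisjoint (S z) := by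
    intro z hz a ha b hb hab
    have := hdisj z hz ha hb hab
    change Disjoint (S z a) (S z b)
    rw [hSdef, hSdef]
    exact this.mono inter_subset_left inter_subset_left
  have hdK : ∀ z ∈ s, (t z : Set (E (N + 1))).PairwiseDisjoint
      (fun y => Cp Ω f z ε y ∩ K) := by
    intro z hz a ha b hb hab
    exact (hdisj z hz ha hb hab).mono inter_subset_left inter_subset_left
  have hVf : volume V ≠ ⊤ := ne_top_of_le_ne_top hKf (measure_mono hVK)
  have hsum1 : ∑ z ∈ s, ∑ y ∈ t z, volume.real (S z y) ≤ C₁ * volume.real V := by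
    refine count hVm hVf (fun z _ y _ => hSm z y) (fun z _ y _ => ?_) hdS ?_
    · rw [hSdef]; exact fun x hx => hx.2.1
    · intro x s' hs' h
      refine hovl x s' hs' fun z hz => ?_
      obtain ⟨y, _, hy⟩ := h z hz
      rw [hSdef] at hy
      linarith [hCpd z y x hy.1]
  have hsum2 : ∑ z ∈ s, ∑ y ∈ t z, ∫ x in Cp Ω f z ε y ∩ K, ‖fderiv ℝ f x‖ ^ p ≤
      C₁ * ∫ x in K, ‖fderiv ℝ f x‖ ^ p := by
    refine countg (B := fun z y => Cp Ω f z ε y ∩ K)
      (fun x => Real.rpow_nonneg (norm_nonneg _) _) hKm (hpow p hp0.le)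
      (fun z _ y _ => (hWm z y).inter hKm) (fun z _ y _ => inter_subset_right) hdK ?_
    intro x s' hs' h
    refine hovl x s' hs' fun z hz => ?_
    obtain ⟨y, _, hy⟩ := h z hz
    linarith [hCpd z y x hy.1]
  have hGm : MeasurableSet G := hG.measurableSet
  have hGf : volume G ≠ ⊤ := hG.measure_lt_top.ne
  have hsum3 : ∑ z ∈ s, volume.real (G ∩ f ⁻¹' ball z (2 * ε)) ≤ C₁ * volume.real G := by
    have h1 := count (s := s) (t := fun _ => ({0} : Finset (E (N + 1))))
      (B := fun z _ => G ∩ f ⁻¹' ball z (2 * ε)) (U := G) (C := C₁) hGm hGf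
      (fun z _ y _ => hGm.inter (hS.meas measurableSet_ball))
      (fun z _ y _ => inter_subset_left) (fun z _ => by simp) (by
        intro x s' hs' h
        refine hovl x s' hs' fun z hz => ?_
        obtain ⟨y, _, hy⟩ := h z hz
        exact hy.2)
    simpa using h1
  have ha0 : ∀ z y, 0 ≤ ∫ x in Cp Ω f z ε y ∩ K, ‖fderiv ℝ f x‖ ^ p := fun z y =>
    integral_nonneg fun x => Real.rpow_nonneg (norm_nonneg _) _
  have hsum4 : ∑ z ∈ s, ∑ y ∈ t z, (δ z y / ε) ^ P *
      ∫ x in Cp Ω f z ε y ∩ K, ‖fderiv ℝ f x‖ ^ p ≤ Γ := by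
    have h1 : ∀ z ∈ s, ∀ y ∈ t z, (δ z y / ε) ^ P *
        (∫ x in Cp Ω f z ε y ∩ K, ‖fderiv ℝ f x‖ ^ p) ≤
        (∫ x in Cp Ω f z ε y ∩ K, ‖fderiv ℝ f x‖ ^ p) + (δ z y / ε) ^ (p / (p - N)) *
          ∫ x in Cp Ω f z ε y ∩ K, ‖fderiv ℝ f x‖ ^ p := by
      intro z hz y hy
      have hr0 : 0 ≤ δ z y / ε := div_nonneg (hδ0 z y) hε.le
      have h2 : (δ z y / ε) ^ P ≤ 1 + (δ z y / ε) ^ (p / (p - N)) := by
        rcases le_total (δ z y / ε) 1 with h | h
        · have h3 : (δ z y / ε) ^ P ≤ 1 := Real.rpow_le_one hr0 h hP0.le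
          have h4 : 0 ≤ (δ z y / ε) ^ (p / (p - N)) := Real.rpow_nonneg hr0 _
          linarith
        · have h3 : (δ z y / ε) ^ P ≤ (δ z y / ε) ^ (p / (p - N)) := by
            refine Real.rpow_le_rpow_of_exponent_le h ?_
            rw [hP]
            exact div_le_div_of_nonneg_left hp0.le hpNN (by linarith)
          linarith
      have h5 := mul_le_mul_of_nonneg_right h2 (ha0 z y)
      linarith
    have h2 : ∀ z ∈ s, ∑ y ∈ t z, (δ z y / ε) ^ (p / (p - N)) *
        ∫ x in Cp Ω f z ε y ∩ K, ‖fderiv ℝ f x‖ ^ p ≤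
        CG * volume.real (G ∩ f ⁻¹' ball z (2 * ε)) := by
      intro z hz
      have h3 := hgeo1 z ε (t z) hε (fun y hy => ⟨(ht z hz y hy).1, by
        linarith [(ht z hz y hy).2]⟩) (hdisj z hz)
      simpa only [hδ] using h3
    calc ∑ z ∈ s, ∑ y ∈ t z, (δ z y / ε) ^ P *
          ∫ x in Cp Ω f z ε y ∩ K, ‖fderiv ℝ f x‖ ^ p
        ≤ ∑ z ∈ s, ∑ y ∈ t z, ((∫ x in Cp Ω f z ε y ∩ K, ‖fderiv ℝ f x‖ ^ p) +
          (δ z y / ε) ^ (p / (p - N)) * ∫ x in Cp Ω f z ε y ∩ K, ‖fderiv ℝ f x‖ ^ p) :=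
          Finset.sum_le_sum fun z hz => Finset.sum_le_sum fun y hy => h1 z hz y hy
      _ = ∑ z ∈ s, ∑ y ∈ t z, (∫ x in Cp Ω f z ε y ∩ K, ‖fderiv ℝ f x‖ ^ p) +
          ∑ z ∈ s, ∑ y ∈ t z, (δ z y / ε) ^ (p / (p - N)) *
            ∫ x in Cp Ω f z ε y ∩ K, ‖fderiv ℝ f x‖ ^ p := by
          rw [← Finset.sum_add_distrib]
          exact Finset.sum_congr rfl fun z _ => Finset.sum_add_distrib
      _ ≤ C₁ * (∫ x in K, ‖fderiv ℝ f x‖ ^ p) + ∑ z ∈ s,
          CG * volume.real (G ∩ f ⁻¹' ball z (2 * ε)) :=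
          add_le_add hsum2 (Finset.sum_le_sum h2)
      _ ≤ Γ := by
          rw [← Finset.mul_sum, hΓ]
          exact add_le_add le_rfl (mul_le_mul_of_nonneg_left hsum3 hCG.le)
  -- Hoelder on one component
  have hhold : ∀ z ∈ s, ∀ y ∈ t z, ∫ x in S z y, ‖fderiv ℝ f x‖ ^ (p - l) ≤
      (∫ x in Cp Ω f z ε y ∩ K, ‖fderiv ℝ f x‖ ^ p) ^ (1 / P) *
        volume.real (S z y) ^ (1 / Q) := by
    intro z hz y hy
    haveI : IsFiniteMeasure (volume.restrict (S z y)) := ⟨by
      rw [Measure.restrict_apply_univ]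
      exact (measure_mono (hSK z y)).trans_lt hK.measure_lt_top⟩
    have hLp : MemLp (fun x => ‖fderiv ℝ f x‖ ^ (p - l)) (ENNReal.ofReal P)
        (volume.restrict (S z y)) := by
      refine MemLp.of_bound (hDm.norm.pow_const _).aestronglyMeasurable (Λ ^ (p - l)) ?_
      filter_upwards [ae_restrict_mem (hSm z y)] with x hx
      rw [Real.norm_of_nonneg (Real.rpow_nonneg (norm_nonneg _) _)]
      exact Real.rpow_le_rpow (norm_nonneg _) (hΛb x (hSK z y hx)) hpl.le
    have h1 := integral_mul_le_Lp_mul_Lq_of_nonneg (μ := volume.restrict (S z y))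
      hPQ (f := fun x => ‖fderiv ℝ f x‖ ^ (p - l)) (g := fun _ => (1 : ℝ))
      (ae_of_all _ fun x => Real.rpow_nonneg (norm_nonneg _) _)
      (ae_of_all _ fun x => zero_le_one) hLp (memLp_const 1)
    simp only [mul_one, Real.one_rpow] at h1
    have h2 : ∫ x in S z y, (1 : ℝ) = volume.real (S z y) := by
      rw [integral_const, smul_eq_mul, mul_one, measureReal_restrict_apply_univ]
    rw [h2] at h1
    have h3 : ∀ x, (‖fderiv ℝ f x‖ ^ (p - l)) ^ P = ‖fderiv ℝ f x‖ ^ p := by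
      intro x
      rw [← Real.rpow_mul (norm_nonneg _)]
      congr 1
      rw [hP]; field_simp
    simp only [h3] at h1
    refine h1.trans (mul_le_mul_of_nonneg_right ?_ (Real.rpow_nonneg measureReal_nonneg _))
    refine Real.rpow_le_rpow (integral_nonneg fun x => Real.rpow_nonneg (norm_nonneg _) _) ?_
      (by positivity)
    refine setIntegral_mono_set ((hpow p hp0.le).mono_set inter_subset_right)
      (ae_of_all _ fun x => Real.rpow_nonneg (norm_nonneg _) _) ?_
    refine HasSubset.Subset.eventuallyLE ?_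
    rw [hSdef]
    exact fun x hx => ⟨hx.1, hTK z hx.2⟩
  -- Hoelder for the sum
  have hsum5 : ∑ z ∈ s, ∑ y ∈ t z, ((δ z y / ε) *
      ∫ x in S z y, ‖fderiv ℝ f x‖ ^ (p - l)) ≤
      Γ ^ (1 / P) * (C₁ * volume.real V) ^ (1 / Q) := by
    have h1 : ∑ z ∈ s, ∑ y ∈ t z, ((δ z y / ε) *
        ∫ x in S z y, ‖fderiv ℝ f x‖ ^ (p - l)) ≤
        ∑ a ∈ s.sigma t, ((δ a.1 a.2 / ε) *
          (∫ x in Cp Ω f a.1 ε a.2 ∩ K, ‖fderiv ℝ f x‖ ^ p) ^ (1 / P)) *
            volume.real (S a.1 a.2) ^ (1 / Q) := by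
      rw [Finset.sum_sigma]
      refine Finset.sum_le_sum fun z hz => Finset.sum_le_sum fun y hy => ?_
      rw [mul_assoc]
      exact mul_le_mul_of_nonneg_left (hhold z hz y hy) (div_nonneg (hδ0 z y) hε.le)
    refine h1.trans ?_
    have h2 := Real.inner_le_Lp_mul_Lq_of_nonneg (s.sigma t) hPQ
      (f := fun a => (δ a.1 a.2 / ε) *
          (∫ x in Cp Ω f a.1 ε a.2 ∩ K, ‖fderiv ℝ f x‖ ^ p) ^ (1 / P))
      (g := fun a => volume.real (S a.1 a.2) ^ (1 / Q))
      (fun a _ => mul_nonneg (div_nonneg (hδ0 _ _) hε.le) (Real.rpow_nonneg (ha0 _ _) _))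
      (fun a _ => Real.rpow_nonneg measureReal_nonneg _)
    refine h2.trans ?_
    have h3 : ∑ a ∈ s.sigma t, ((δ a.1 a.2 / ε) *
          (∫ x in Cp Ω f a.1 ε a.2 ∩ K, ‖fderiv ℝ f x‖ ^ p) ^ (1 / P)) ^ P ≤ Γ := by
      rw [Finset.sum_sigma]
      refine le_trans (le_of_eq ?_) hsum4
      refine Finset.sum_congr rfl fun z _ => Finset.sum_congr rfl fun y _ => ?_
      rw [Real.mul_rpow (div_nonneg (hδ0 _ _) hε.le) (Real.rpow_nonneg (ha0 _ _) _),
        ← Real.rpow_mul (ha0 _ _), one_div_mul_cancel hP0.ne', Real.rpow_one]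
    have h4 : ∑ a ∈ s.sigma t, (volume.real (S a.1 a.2) ^ (1 / Q)) ^ Q ≤
        C₁ * volume.real V := by
      rw [Finset.sum_sigma]
      refine le_trans (le_of_eq ?_) hsum1
      refine Finset.sum_congr rfl fun z _ => Finset.sum_congr rfl fun y _ => ?_
      rw [← Real.rpow_mul measureReal_nonneg, one_div_mul_cancel hQ0.ne', Real.rpow_one]
    refine mul_le_mul (Real.rpow_le_rpow ?_ h3 (by positivity))
      (Real.rpow_le_rpow ?_ h4 (by positivity)) ?_ (by positivity)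
    · exact Finset.sum_nonneg fun a _ => Real.rpow_nonneg
        (mul_nonneg (div_nonneg (hδ0 _ _) hε.le) (Real.rpow_nonneg (ha0 _ _) _)) _
    · exact Finset.sum_nonneg fun a _ => Real.rpow_nonneg
        (Real.rpow_nonneg measureReal_nonneg _) _
    · exact Real.rpow_nonneg (Finset.sum_nonneg fun a _ => Real.rpow_nonneg
        (Real.rpow_nonneg measureReal_nonneg _) _) _
  -- conclusion
  have hv0 : 0 ≤ volume.real V := measureReal_nonneg
  calc ∑ z ∈ s, ∑ y ∈ t z, |Loc f σ w i j φ (ψ z) (Cp Ω f z ε y) 0 (y j)|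
      ≤ ∑ z ∈ s, ∑ y ∈ t z, (B₁ * volume.real (S z y) +
        B₂ * ((δ z y / ε) * ∫ x in S z y, ‖fderiv ℝ f x‖ ^ (p - l))) :=
        Finset.sum_le_sum fun z hz => Finset.sum_le_sum fun y hy => hone z hz y hy
    _ = B₁ * ∑ z ∈ s, ∑ y ∈ t z, volume.real (S z y) +
        B₂ * ∑ z ∈ s, ∑ y ∈ t z, ((δ z y / ε) *
          ∫ x in S z y, ‖fderiv ℝ f x‖ ^ (p - l)) := by
        rw [Finset.mul_sum, Finset.mul_sum, ← Finset.sum_add_distrib]
        refine Finset.sum_congr rfl fun z _ => ?_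
        rw [Finset.sum_add_distrib, Finset.mul_sum, Finset.mul_sum]
    _ ≤ B₁ * (C₁ * volume.real V) + B₂ * (Γ ^ (1 / P) * (C₁ * volume.real V) ^ (1 / Q)) :=
        add_le_add (mul_le_mul_of_nonneg_left hsum1 hB₁0)
          (mul_le_mul_of_nonneg_left hsum5 hB₂0)
    _ ≤ (B₁ * C₁ + B₂ * (Γ ^ (1 / P) * C₁ ^ (1 / Q)) + 1) *
        (volume.real V + volume.real V ^ ((l : ℝ) / p)) := by
        rw [Real.mul_rpow hC₁.le hv0, ← h1Q]
        have h1 : 0 ≤ volume.real V ^ (1 / Q) := Real.rpow_nonneg hv0 _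
        have h2 : 0 ≤ Γ ^ (1 / P) * C₁ ^ (1 / Q) := by positivity
        have e : (B₁ * C₁ + B₂ * (Γ ^ (1 / P) * C₁ ^ (1 / Q)) + 1) *
            (volume.real V + volume.real V ^ (1 / Q)) -
            (B₁ * (C₁ * volume.real V) + B₂ * (Γ ^ (1 / P) * (C₁ ^ (1 / Q) *
              volume.real V ^ (1 / Q)))) =
            B₁ * C₁ * volume.real V ^ (1 / Q) +
              B₂ * (Γ ^ (1 / P) * C₁ ^ (1 / Q)) * volume.real V +
              (volume.real V + volume.real V ^ (1 / Q)) := by ring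
        have : 0 ≤ B₁ * C₁ * volume.real V ^ (1 / Q) +
              B₂ * (Γ ^ (1 / P) * C₁ ^ (1 / Q)) * volume.real V +
              (volume.real V + volume.real V ^ (1 / Q)) := by positivity
        linarith

end Pool.Agent.Lib.MP_abd978_an.UN.H10B
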