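import Pool.Agent.Lib.MP_abd978_an.UN.H10.Lin

/-!
# Project UNW: CONCL
-/

set_option autoImplicit false

open MeasureTheory Metric Set Filter Topology ContDiff
open scoped Gradient RealInnerProductSpace NNReal ENNReal

namespace Pool.Agent.Lib.MP_abd978_an.UN.H10

theorem locLip_comp {n : ℕ} {Ω : Set (E n)} {f : E n → E n} (h : LocLip Ω f) (j : Fin n) :
    LocLip Ω (fun x => f x j) := by
  intro x hx
  obtain ⟨K, U, hU, hK⟩ := h x hx
  refine ⟨K, U, hU, ?_⟩
  refine LipschitzOnWith.of_dist_le_mul fun y hy z hz => ?_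
  have h1 := hK.dist_le_mul y hy z hz
  refine le_trans ?_ h1
  rw [dist_eq_norm, dist_eq_norm]
  exact PiLp.norm_apply_le (f y - f z) j

theorem locLip_continuousOn {n : ℕ} {F : Type} [NormedAddCommGroup F] {Ω : Set (E n)}
    {f : E n → F} (h : LocLip Ω f) : ContinuousOn f Ω := by
  intro x hx
  obtain ⟨K, U, hU, hK⟩ := h x hx
  exact (hK.continuousOn.continuousAt hU).continuousWithinAt

/-- a function with derivative zero almost everywhere is locally constant -/
theorem eq_of_zero (hmo : MorreyStatement) (hls : LsoblStatement) {n : ℕ} {p : ℝ} (hn : 1 ≤ n)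
    (hp : (n : ℝ) < p) {Ω : Set (E n)} {f : E n → E n} (hΩ : IsOpen Ω) (hf : LocLip Ω f)
    (h0 : ∀ᵐ x : E n, x ∈ Ω → DifferentiableAt ℝ f x ∧ fderiv ℝ f x = 0) {x : E n} {r : ℝ}
    (hr : 0 < r) (hx : closedBall x r ⊆ Ω) : ∀ y ∈ ball x r, f y = f x := by
  have hn1 : (1 : ℝ) ≤ n := by exact_mod_cast hn
  have hp1 : 1 < p := lt_of_le_of_lt hn1 hp
  have hp0 : 0 < p := by linarith
  intro y hy
  obtain ⟨C, hC, hM⟩ := hmo n p hn hp
  ext j
  have h1 := hls n p Ω (fun z => f z j) hp1 hΩ (locLip_comp hf j) (ball x r) isOpen_ball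
    (isCompact_of_isClosed_isBounded isClosed_closure isBounded_ball.closure)
    (closure_ball_subset_closedBall.trans hx)
  have h2 := hM x r (fun z => f z j) _ hr
    ((locLip_continuousOn (locLip_comp hf j)).mono (ball_subset_closedBall.trans hx)) h1 y hy x
    (mem_ball_self hr)
  have h3 : ∫ z in ball x r, ‖∇ (fun z => f z j) z‖ ^ p = 0 := by
    have h4 : ∫ z in ball x r, ‖∇ (fun z => f z j) z‖ ^ p = ∫ z in ball x r, (0 : ℝ) := by
      refine setIntegral_congr_ae measurableSet_ball ?_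
      filter_upwards [h0] with z hz hzb
      obtain ⟨h5, h6⟩ := hz (hx (ball_subset_closedBall hzb))
      have h7 : HasFDerivAt (fun z => f z j)
          ((EuclideanSpace.proj j : E n →L[ℝ] ℝ).comp (fderiv ℝ f z)) z :=
        (EuclideanSpace.proj j : E n →L[ℝ] ℝ).hasFDerivAt.comp z h5.hasFDerivAt
      rw [norm_grad, h7.fderiv, h6, ContinuousLinearMap.comp_zero, norm_zero,
        Real.zero_rpow hp0.ne']
    rw [h4]
    simp
  rw [h3, Real.zero_rpow (by positivity), mul_zero] at h2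
  have h8 := abs_nonpos_iff.1 h2
  linarith

theorem ball_inter_ae {n : ℕ} {P : E n → Prop} (h : ∀ᵐ x : E n, P x) (x : E n) {r : ℝ}
    (hr : 0 < r) : ∃ y ∈ ball x r, P y := by
  by_contra hcon
  push Not at hcon
  have h1 : ball x r ⊆ {y | ¬ P y} := fun y hy => hcon y hy
  have h2 : volume (ball x r) = 0 := measure_mono_null h1 (ae_iff.1 h)
  exact (measure_ball_pos volume x hr).ne' h2

theorem concl (hrega : RegaStatement) (hsigz : SigzStatement) (hstep : StepStatement)
    (hconst : ConstStatement) (hlip : LipStatement) (hdisc : DiscStatement)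
    (hmo : MorreyStatement) (hls : LsoblStatement) : ConclStatement := by
  intro n p a α β b α' β' hD Ω f hM hpc
  obtain ⟨N, rfl⟩ : ∃ N, n = N + 1 := ⟨n - 1, by have := hD.hn; omega⟩
  obtain ⟨m, c, C, hR⟩ := hrega (N + 1) p a α β b α' β' hD Ω f hM
  obtain ⟨hS, hSF, h0⟩ := hsigz N p a α β b α' β' hD Ω f m c C hM hR
  have hPP : ∀ k, PP Ω f (fun x => m x / (fderiv ℝ f x).det) k := by
    intro k
    induction k with
    | zero => exact h0
    | succ k ih => exact hstep N p Ω f _ k hS hSF ih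
  obtain ⟨κ, hκ⟩ := hconst N p Ω f _ hS hSF hpc (hPP N)
  have hΩ := hM.isOpen
  have hc := hR.hc
  have hC := hR.hC
  have hnp := hD.hp
  have hn1 : (1 : ℝ) ≤ ((N + 1 : ℕ) : ℝ) := by exact_mod_cast Nat.succ_le_succ (Nat.zero_le N)
  have hp0 : 0 < p := by linarith
  by_cases hκ0 : κ = 0
  · left
    have h1 : ∀ᵐ x : E (N + 1), x ∈ Ω → DifferentiableAt ℝ f x ∧ fderiv ℝ f x = 0 := by
      filter_upwards [hR.diff, hR.lower, hS.inv, hκ] with x h2 h3 h4 h5 hx
      refine ⟨h2 hx, ?_⟩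
      rcases h4 hx with h6 | h6
      · exact h6
      · have h7 := h5 hx
        rw [hκ0, div_eq_zero_iff] at h7
        have h8 : m x = 0 := by
          rcases h7 with h7 | h7
          · exact h7
          · exact absurd h7 h6
        have h9 := h3 hx
        rw [h8] at h9
        by_contra hcon
        have h10 : 0 < ‖fderiv ℝ f x‖ := norm_pos_iff.2 hcon
        have h11 : 0 < c * ‖fderiv ℝ f x‖ ^ p := by positivity
        linarith
    -- `f` is locally constant
    have hloc : ∀ x ∈ Ω, ∀ᶠ y in 𝓝[Ω] x, f y = f x := by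
      intro x hx
      obtain ⟨r, hr, hrΩ⟩ := nhds_basis_closedBall.mem_iff.1 (hΩ.mem_nhds hx)
      have h2 := eq_of_zero hmo hls (by omega) hnp hΩ hR.loclip h1 hr hrΩ
      exact nhdsWithin_le_nhds (eventually_of_mem (ball_mem_nhds x hr) h2)
    rintro _ ⟨x, hx, rfl⟩ _ ⟨y, hy, rfl⟩
    have h2 : IsPreconnected (f '' Ω) := hpc.image _ hM.cont
    -- use a clopen argument
    have h3 : Ω ⊆ {z | z ∈ Ω ∧ f z = f x} := by
      have hpc' := isPreconnected_iff_subset_of_disjoint.1 hpc {z | z ∈ Ω ∧ f z = f x}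
        {z | z ∈ Ω ∧ f z ≠ f x} ?_ ?_ ?_ ?_
      · rcases hpc' with h4 | h4
        · exact h4
        · exact absurd rfl (h4 hx).2
      · rw [isOpen_iff_mem_nhds]
        rintro z ⟨hz, hz'⟩
        have h4 := hloc z hz
        rw [hΩ.nhdsWithin_eq hz] at h4
        filter_upwards [h4, hΩ.mem_nhds hz] with w hw hw'
        exact ⟨hw', by rw [hw, hz']⟩
      · rw [isOpen_iff_mem_nhds]
        rintro z ⟨hz, hz'⟩
        have h4 := hloc z hz
        rw [hΩ.nhdsWithin_eq hz] at h4
        filter_upwards [h4, hΩ.mem_nhds hz] with w hw hw'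
        exact ⟨hw', by rw [hw]; exact hz'⟩
      · intro z hz
        by_cases h4 : f z = f x
        · exact Or.inl ⟨hz, h4⟩
        · exact Or.inr ⟨hz, h4⟩
      · ext z
        simp only [mem_inter_iff, mem_setOf_eq, mem_empty_iff_false, iff_false]
        rintro ⟨-, ⟨-, h4⟩, -, h5⟩
        exact h5 h4
    exact (h3 hy).2.symm
  · right
    set l₀ : ℝ := (|κ| * c ^ (N + 1) / C) ^ (1 / (p - (N + 1 : ℕ))) with hl₀
    set l₁ : ℝ := (|κ| / c) ^ (1 / (p - (N + 1 : ℕ))) with hl₁
    have hκ1 : 0 < |κ| := abs_pos.2 hκ0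
    have hl₀' : 0 < l₀ := by positivity
    have hpn : 0 < p - (N + 1 : ℕ) := by linarith
    -- the two-sided bound
    have hbd : ∀ᵐ x : E (N + 1), x ∈ Ω → DifferentiableAt ℝ f x ∧ l₀ ≤ ‖fderiv ℝ f x‖ ∧
        ‖fderiv ℝ f x‖ ≤ l₁ ∧ ∀ v, c * l₀ * ‖v‖ ≤ ‖fderiv ℝ f x v‖ := by
      filter_upwards [hR.diff, hR.lower, hR.upper, hR.dist, hκ] with x h1 h2 h3 h4 h5 hx
      replace h1 := h1 hx
      replace h2 := h2 hx
      replace h3 := h3 hx
      replace h4 := h4 hx
      replace h5 := h5 hx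
      set L := fderiv ℝ f x with hL
      have hdet : L.det ≠ 0 := by
        intro h6
        rw [h6, div_zero] at h5
        exact hκ0 h5.symm
      have hm : m x = κ * L.det := by
        rw [← h5, div_mul_cancel₀ _ hdet]
      have hL0 : 0 < ‖L‖ := by
        rw [norm_pos_iff]
        intro h6
        have h7 := abs_det_le L
        rw [h6, norm_zero, zero_pow (Nat.succ_ne_zero N)] at h7
        rw [← h6] at h7
        exact hdet (abs_nonpos_iff.1 h7)
      have hmpos : 0 ≤ m x := le_trans (by positivity) h2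
      have hmabs : m x = |κ| * |L.det| := by
        rw [← abs_mul, ← hm, abs_of_nonneg hmpos]
      have hlow : ∀ v, c * ‖L‖ * ‖v‖ ≤ ‖ContinuousLinearMap.adjoint L v‖ := h4
      have hcl : 0 < c * ‖L‖ := by positivity
      have hdet1 : (c * ‖L‖) ^ (N + 1) ≤ |L.det| := by
        have := pow_le_det hcl hlow
        rwa [det_adjoint] at this
      have hsplit : ‖L‖ ^ p = ‖L‖ ^ (p - (N + 1 : ℕ)) * ‖L‖ ^ (N + 1) := by
        rw [← Real.rpow_natCast ‖L‖ (N + 1), ← Real.rpow_add hL0]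
        congr 1
        ring
      have hLN : 0 < ‖L‖ ^ (N + 1) := by positivity
      have hA : c * ‖L‖ ^ (p - (N + 1 : ℕ)) ≤ |κ| := by
        have h6 : c * ‖L‖ ^ (p - (N + 1 : ℕ)) * ‖L‖ ^ (N + 1) ≤ |κ| * ‖L‖ ^ (N + 1) := by
          calc c * ‖L‖ ^ (p - (N + 1 : ℕ)) * ‖L‖ ^ (N + 1) = c * ‖L‖ ^ p := by
                rw [hsplit]; ring
            _ ≤ m x := h2
            _ = |κ| * |L.det| := hmabs
            _ ≤ |κ| * ‖L‖ ^ (N + 1) := by
                gcongr
                exact abs_det_le L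
        exact le_of_mul_le_mul_right h6 hLN
      have hB : |κ| * c ^ (N + 1) ≤ C * ‖L‖ ^ (p - (N + 1 : ℕ)) := by
        have h6 : |κ| * c ^ (N + 1) * ‖L‖ ^ (N + 1) ≤
            C * ‖L‖ ^ (p - (N + 1 : ℕ)) * ‖L‖ ^ (N + 1) := by
          calc |κ| * c ^ (N + 1) * ‖L‖ ^ (N + 1) = |κ| * (c * ‖L‖) ^ (N + 1) := by
                rw [mul_pow]; ring
            _ ≤ |κ| * |L.det| := by gcongr
            _ = m x := hmabs.symm
            _ ≤ C * ‖L‖ ^ p := h3
            _ = C * ‖L‖ ^ (p - (N + 1 : ℕ)) * ‖L‖ ^ (N + 1) := by rw [hsplit]; ring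
        exact le_of_mul_le_mul_right h6 hLN
      have hinvp : (‖L‖ ^ (p - (N + 1 : ℕ))) ^ (1 / (p - (N + 1 : ℕ))) = ‖L‖ := by
        rw [← Real.rpow_mul hL0.le, mul_one_div_cancel hpn.ne', Real.rpow_one]
      have hC1 : l₀ ≤ ‖L‖ := by
        rw [← hinvp, hl₀]
        refine Real.rpow_le_rpow (by positivity) ?_ (by positivity)
        rw [div_le_iff₀ hC]
        linarith
      have hC2 : ‖L‖ ≤ l₁ := by
        rw [← hinvp, hl₁]
        refine Real.rpow_le_rpow (by positivity) ?_ (by positivity)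
        rw [le_div_iff₀ hc]
        linarith
      refine ⟨h1, hC1, hC2, fun v => ?_⟩
      refine le_trans ?_ (lower_of_adjoint hcl hlow v)
      gcongr
    refine ⟨hR.loclip, fun K hK hKΩ => ⟨c * l₀, l₁, by positivity, ?_⟩, fun K hK hKΩ => ?_⟩
    · filter_upwards [hbd] with x h1 hx
      obtain ⟨h2, h3, h4, h5⟩ := h1 (hKΩ hx)
      refine ⟨h2, fun v => ⟨h5 v, ?_⟩⟩
      calc ‖fderiv ℝ f x v‖ ≤ ‖fderiv ℝ f x‖ * ‖v‖ := (fderiv ℝ f x).le_opNorm v
        _ ≤ l₁ * ‖v‖ := by gcongr
    · obtain ⟨C₁, hC₁, hL⟩ := hlip (N + 1) p a α β b α' β' hD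
      obtain ⟨r₀, hr₀, hr₀'⟩ := hK.exists_cthickening_subset_open hΩ hKΩ
      refine hdisc (N + 1) p a α β b α' β' hD Ω f hM K hK hKΩ (l₀ / (4 * C₁)) r₀
        (by positivity) hr₀ ?_
      intro x hx r hr hrr
      have hball : closedBall x r ⊆ Ω := by
        refine Subset.trans ?_ hr₀'
        exact (closedBall_subset_closedBall hrr.le).trans (closedBall_subset_cthickening hx r₀)
      obtain ⟨z₀, hz₀, hmax⟩ := (isCompact_closedBall x r).exists_isMaxOn
        ⟨x, mem_closedBall_self hr.le⟩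
        (f := fun z => dist (f z) (f x))
        (continuous_dist.comp_continuousOn ((hM.cont.mono hball).prodMk continuousOn_const))
      refine ⟨z₀, hz₀, ?_⟩
      set w := dist (f z₀) (f x) with hw
      have hmax' : ∀ z ∈ closedBall x r, dist (f z) (f x) ≤ w := fun z hz => hmax hz
      obtain ⟨x₁, hx₁, hx₁'⟩ := ball_inter_ae hbd x (half_pos hr)
      have hx₁r : x₁ ∈ closedBall x r := by
        rw [mem_ball] at hx₁
        rw [mem_closedBall]
        linarith
      obtain ⟨h2, h3, -, -⟩ := hx₁' (hball hx₁r)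
      have hsub : closedBall x₁ (r / 2) ⊆ closedBall x r := by
        refine closedBall_subset_closedBall' ?_
        rw [mem_ball] at hx₁
        linarith
      have h4 := hL Ω f hM x₁ (r / 2) (2 * w) (half_pos hr) (hsub.trans hball) (fun z hz => by
        calc dist (f z) (f x₁) ≤ dist (f z) (f x) + dist (f x₁) (f x) := dist_triangle_right _ _ _
          _ ≤ w + w := add_le_add (hmax' z (hsub hz)) (hmax' x₁ hx₁r)
          _ = 2 * w := by ring)
      have h5 : ‖fderiv ℝ f x₁‖ ≤ C₁ * (2 * w / (r / 2)) := by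
        refine norm_fderiv_le_of_lip' ℝ (by positivity) ?_
        filter_upwards [ball_mem_nhds x₁ (half_pos (half_pos hr))] with z hz
        have h6 := h4 z hz
        rwa [dist_eq_norm, dist_eq_norm] at h6
      have h6 : l₀ ≤ C₁ * (2 * w / (r / 2)) := h3.trans h5
      have h7 : C₁ * (2 * w / (r / 2)) = 4 * C₁ * w / r := by
        field_simp
        ring
      rw [h7, le_div_iff₀ hr] at h6
      rw [div_mul_eq_mul_div, div_le_iff₀ (by positivity)]
      linarith

end Pool.Agent.Lib.MP_abd978_an.UN.H10
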