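import Pool.Agent.Lib.MP_abd978_an.UN.H10.Lin
import Pool.Agent.Lib.MP_abd978_an.Assembly

/-!
# Project UNW: FINAL
-/

set_option autoImplicit false

open MeasureTheory Metric Set Filter Topology ContDiff
open scoped Gradient RealInnerProductSpace NNReal ENNReal

namespace Pool.Agent.Lib.MP_abd978_an.UN.H10

/-- restriction of the property BLD; equality on the open set -/
theorem bld_congr {n : ℕ} {Ω Ω' : Set (E n)} {f g : E n → E n} (h : BLD Ω f) (hΩ' : IsOpen Ω')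
    (hsub : Ω' ⊆ Ω) (hfg : ∀ x ∈ Ω', g x = f x) : BLD Ω' g := by
  have hev : ∀ x ∈ Ω', g =ᶠ[𝓝 x] f := fun x hx => eventually_of_mem (hΩ'.mem_nhds hx) hfg
  refine ⟨?_, ?_, ?_⟩
  · intro x hx
    obtain ⟨K, U, hU, hK⟩ := h.loclip x (hsub hx)
    refine ⟨K, U ∩ Ω', inter_mem hU (hΩ'.mem_nhds hx), ?_⟩
    intro y hy z hz
    rw [hfg y hy.2, hfg z hz.2]
    exact hK hy.1 hz.1
  · intro K hK hKΩ
    obtain ⟨c, C, hc, hae⟩ := h.der K hK (hKΩ.trans hsub)
    refine ⟨c, C, hc, ?_⟩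
    filter_upwards [hae] with x hx hxK
    obtain ⟨h1, h2⟩ := hx hxK
    have h3 := hev x (hKΩ hxK)
    rw [h3.fderiv_eq]
    exact ⟨h3.differentiableAt_iff.2 h1, h2⟩
  · intro K hK hKΩ
    obtain ⟨N, hN⟩ := h.disc K hK (hKΩ.trans hsub)
    refine ⟨N, fun ζ s hs hs' => hN ζ s hs fun x hx => ?_⟩
    rw [← hfg x (hKΩ (hs x hx))]
    exact hs' x hx

/-- BLD mappings are not locally constant -/
theorem bld_not_const {n : ℕ} (hn : 1 ≤ n) {Ω : Set (E n)} {f : E n → E n} (h : BLD Ω f)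
    {x : E n} {r : ℝ} (hr : 0 < r) (hx : ball x r ⊆ Ω) (hc : ∀ y ∈ ball x r, f y = f x) :
    False := by
  obtain ⟨c, C, hc0, hae⟩ := h.der (closedBall x (r / 2)) (isCompact_closedBall _ _)
    ((closedBall_subset_ball (half_lt_self hr)).trans hx)
  have h1 : ∃ y ∈ ball x (r / 2), y ∈ closedBall x (r / 2) → DifferentiableAt ℝ f y ∧
      ∀ v : E n, c * ‖v‖ ≤ ‖fderiv ℝ f y v‖ ∧ ‖fderiv ℝ f y v‖ ≤ C * ‖v‖ := by
    by_contra hcon
    push Not at hcon
    have h1 : ball x (r / 2) ⊆ {y | ¬ (y ∈ closedBall x (r / 2) → DifferentiableAt ℝ f y ∧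
      ∀ v : E n, c * ‖v‖ ≤ ‖fderiv ℝ f y v‖ ∧ ‖fderiv ℝ f y v‖ ≤ C * ‖v‖)} := by
      intro y hy
      have h2 := hcon y hy
      simp only [mem_setOf_eq]
      intro h3
      obtain ⟨h4, h5⟩ := h2
      obtain ⟨h6, h7⟩ := h3 h4
      obtain ⟨v, hv⟩ := h5 h6
      exact absurd (h7 v).2 (not_le.2 (hv (h7 v).1))
    have h2 : volume (ball x (r / 2)) = 0 := measure_mono_null h1 (ae_iff.1 hae)
    exact (measure_ball_pos volume x (half_pos hr)).ne' h2
  obtain ⟨y, hy, hy'⟩ := h1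
  obtain ⟨-, h3⟩ := hy' (ball_subset_closedBall hy)
  have hyr : y ∈ ball x r := ball_subset_ball (half_le_self hr.le) hy
  have h4 : f =ᶠ[𝓝 y] fun _ => f x := eventually_of_mem (isOpen_ball.mem_nhds hyr) hc
  have h5 : fderiv ℝ f y = 0 := by
    rw [h4.fderiv_eq]
    exact fderiv_const_apply _
  have h6 := (h3 (EuclideanSpace.single ⟨0, hn⟩ 1)).1
  rw [h5] at h6
  simp only [EuclideanSpace.norm_single, norm_one, mul_one, ContinuousLinearMap.zero_apply,
    norm_zero] at h6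
  linarith

theorem final (hconcl : ConclStatement) (hlocm : LocmStatement)
    (habd : Pool.Agent.Lib.MP_abd978_an.FinalStatement) :
    UN.FinalStatement := by
  intro n p w A w' A' Ω Ω₁ f hn hp hA hA' hΩ hf hΩ₁ hpc hsub hdense hbdd
  have hn1 : (1 : ℝ) < n := by exact_mod_cast hn
  have hn1' : 1 ≤ n := by omega
  have hp1 : 1 < p := hn1.trans hp
  have hopen := (habd n p Ω f hn hp1 hΩ ⟨w', A', w, A, hA', hA, hf⟩).2.2
  -- the local dichotomy
  have hloc : ∀ x ∈ Ω₁, ∃ r : ℝ, 0 < r ∧ ball x r ⊆ Ω₁ ∧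
      ((∀ y ∈ ball x r, f y = f x) ∨ BLD (ball x r) f) := by
    intro x hx
    obtain ⟨r, a, α, β, b, α', β', hr, hrΩ, hD, hM⟩ := hlocm n p w A w' A' Ω f x hn hp hA hA' hΩ hf
      (hsub hx) (hbdd x hx).1 (hbdd x hx).2
    obtain ⟨r', hr', hr'Ω⟩ := Metric.isOpen_iff.1 hΩ₁ x hx
    have hmin : 0 < min r r' := lt_min hr hr'
    refine ⟨min r r', hmin, (ball_subset_ball (min_le_right _ _)).trans hr'Ω, ?_⟩
    have hind : ∀ y ∈ ball x r, (ball x r).indicator f y = f y := fun y hy =>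
      indicator_of_mem hy f
    rcases hconcl n p a α β b α' β' hD (ball x r) _ hM (isPreconnected_ball) with h | h
    · left
      intro y hy
      have hy' : y ∈ ball x r := ball_subset_ball (min_le_left _ _) hy
      have h1 := h (mem_image_of_mem _ hy') (mem_image_of_mem _ (mem_ball_self hr))
      rwa [hind y hy', hind x (mem_ball_self hr)] at h1
    · right
      refine bld_congr h isOpen_ball (ball_subset_ball (min_le_left _ _)) fun y hy => ?_
      exact (hind y (ball_subset_ball (min_le_left _ _) hy)).symm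
  set S1 : Set (E n) := {x | x ∈ Ω₁ ∧ ∃ r : ℝ, 0 < r ∧ ball x r ⊆ Ω₁ ∧ ∀ y ∈ ball x r, f y = f x}
    with hS1
  set S2 : Set (E n) := {x | x ∈ Ω₁ ∧ ∃ r : ℝ, 0 < r ∧ ball x r ⊆ Ω₁ ∧ BLD (ball x r) f} with hS2
  have hinner : ∀ {x y : E n} {r : ℝ}, y ∈ ball x r → 0 < r - dist y x ∧
      ball y (r - dist y x) ⊆ ball x r := by
    intro x y r hy
    rw [mem_ball] at hy
    exact ⟨by linarith, ball_subset_ball' (by linarith)⟩
  have hS1o : IsOpen S1 := by
    rw [Metric.isOpen_iff]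
    rintro x ⟨hx, r, hr, hrΩ, hc⟩
    refine ⟨r, hr, fun y hy => ⟨hrΩ hy, r - dist y x, (hinner hy).1, (hinner hy).2.trans hrΩ, ?_⟩⟩
    intro z hz
    rw [hc z ((hinner hy).2 hz), hc y hy]
  have hS2o : IsOpen S2 := by
    rw [Metric.isOpen_iff]
    rintro x ⟨hx, r, hr, hrΩ, hc⟩
    refine ⟨r, hr, fun y hy => ⟨hrΩ hy, r - dist y x, (hinner hy).1, (hinner hy).2.trans hrΩ, ?_⟩⟩
    exact bld_congr hc isOpen_ball (hinner hy).2 fun _ _ => rfl
  have hcov : Ω₁ ⊆ S1 ∪ S2 := by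
    intro x hx
    obtain ⟨r, hr, hrΩ, h | h⟩ := hloc x hx
    · exact Or.inl ⟨hx, r, hr, hrΩ, h⟩
    · exact Or.inr ⟨hx, r, hr, hrΩ, h⟩
  have hdisj : Ω₁ ∩ (S1 ∩ S2) = ∅ := by
    ext x
    simp only [mem_inter_iff, mem_empty_iff_false, iff_false]
    rintro ⟨-, ⟨hx, r, hr, hrΩ, hc⟩, -, r', hr', hrΩ', hb⟩
    have hm : 0 < min r r' := lt_min hr hr'
    exact bld_not_const hn1' hb hm (ball_subset_ball (min_le_right _ _)) fun y hy =>
      hc y (ball_subset_ball (min_le_left _ _) hy)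
  have hΩcl : Ω ⊆ closure Ω₁ := hdense
  rcases isPreconnected_iff_subset_of_disjoint.1 hpc S1 S2 hS1o hS2o hcov hdisj with h | h
  · left
    -- `f` is constant on `Ω₁`
    have hconst : ∀ x ∈ Ω₁, ∀ y ∈ Ω₁, f y = f x := by
      intro x hx y hy
      have h3 : Ω₁ ⊆ {z | z ∈ Ω₁ ∧ f z = f x} := by
        have hpc' := isPreconnected_iff_subset_of_disjoint.1 hpc {z | z ∈ Ω₁ ∧ f z = f x}
          {z | z ∈ Ω₁ ∧ f z ≠ f x} ?_ ?_ ?_ ?_
        · rcases hpc' with h4 | h4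
          · exact h4
          · exact absurd rfl (h4 hx).2
        · rw [Metric.isOpen_iff]
          rintro z ⟨hz, hz'⟩
          obtain ⟨-, r, hr, hrΩ, hc⟩ := h hz
          exact ⟨r, hr, fun t ht => ⟨hrΩ ht, by rw [hc t ht, hz']⟩⟩
        · rw [Metric.isOpen_iff]
          rintro z ⟨hz, hz'⟩
          obtain ⟨-, r, hr, hrΩ, hc⟩ := h hz
          exact ⟨r, hr, fun t ht => ⟨hrΩ ht, by rw [hc t ht]; exact hz'⟩⟩
        · intro z hz
          by_cases h4 : f z = f x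
          · exact Or.inl ⟨hz, h4⟩
          · exact Or.inr ⟨hz, h4⟩
        · ext z
          simp only [mem_inter_iff, mem_setOf_eq, mem_empty_iff_false, iff_false]
          rintro ⟨-, ⟨-, h4⟩, -, h5⟩
          exact h5 h4
      exact (h3 hy).2
    rintro _ ⟨x, hx, rfl⟩ _ ⟨y, hy, rfl⟩
    have hne : Ω₁.Nonempty := closure_nonempty_iff.1 ⟨x, hΩcl hx⟩
    obtain ⟨z, hz⟩ := hne
    have hall : ∀ t ∈ Ω, f t = f z := by
      intro t ht
      have h1 : ContinuousWithinAt f Ω₁ t := (hf.1 t ht).mono hsub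
      have h2 : t ∈ closure Ω₁ := hΩcl ht
      have h3 : f t ∈ closure ({f z} : Set (E n)) := by
        have h4 := h1.mem_closure_image h2
        refine closure_mono ?_ h4
        rintro _ ⟨s, hs, rfl⟩
        exact hconst z hz s hs
      rwa [closure_singleton] at h3
    rw [hall x hx, hall y hy]
  · right
    have hcomp : ∀ K : Set (E n), IsCompact K → K ⊆ Ω₁ → ∃ t : Finset (E n), ∃ ρ : E n → ℝ,
        (∀ x ∈ t, 0 < ρ x ∧ closedBall x (ρ x) ⊆ Ω₁ ∧ ∃ Γ : Set (E n), closedBall x (ρ x) ⊆ Γ ∧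
          BLD Γ f) ∧ K ⊆ ⋃ x ∈ t, closedBall x (ρ x) := by
      intro K hK hKΩ
      have h1 : ∀ x : E n, ∃ ρ : ℝ, 0 < ρ ∧ (x ∈ K → closedBall x ρ ⊆ Ω₁ ∧ ∃ Γ : Set (E n),
          closedBall x ρ ⊆ Γ ∧ BLD Γ f) := by
        intro x
        by_cases hx : x ∈ K
        · obtain ⟨-, r, hr, hrΩ, hb⟩ := h (hKΩ hx)
          have h2 : closedBall x (r / 2) ⊆ ball x r := closedBall_subset_ball (half_lt_self hr)
          exact ⟨r / 2, half_pos hr, fun _ => ⟨h2.trans hrΩ, ball x r, h2, hb⟩⟩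
        · exact ⟨1, one_pos, fun h2 => absurd h2 hx⟩
      choose ρ hρ hρ' using h1
      obtain ⟨t, htK, ht⟩ := hK.elim_nhds_subcover (fun x => ball x (ρ x)) fun x _ =>
        ball_mem_nhds x (hρ x)
      refine ⟨t, ρ, fun x hx => ⟨hρ x, (hρ' x (htK x hx)).1, (hρ' x (htK x hx)).2⟩,
        ht.trans ?_⟩
      exact iUnion₂_mono fun x _ => ball_subset_closedBall
    have hB : BLD Ω₁ f := by
      refine ⟨?_, ?_, ?_⟩
      · intro x hx
        obtain ⟨-, r, hr, hrΩ, hb⟩ := h hx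
        exact hb.loclip x (mem_ball_self hr)
      · intro K hK hKΩ
        obtain ⟨t, ρ, ht, hKt⟩ := hcomp K hK hKΩ
        have h1 : ∀ x : E n, ∃ c C : ℝ, 0 < c ∧ (x ∈ t → ∀ᵐ y : E n, y ∈ closedBall x (ρ x) →
            DifferentiableAt ℝ f y ∧
              ∀ v : E n, c * ‖v‖ ≤ ‖fderiv ℝ f y v‖ ∧ ‖fderiv ℝ f y v‖ ≤ C * ‖v‖) := by
          intro x
          by_cases hx : x ∈ t
          · obtain ⟨-, -, Γ, hΓ, hb⟩ := ht x hx
            obtain ⟨c, C, hc, hae⟩ := hb.der _ (isCompact_closedBall _ _) hΓ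
            exact ⟨c, C, hc, fun _ => hae⟩
          · exact ⟨1, 1, one_pos, fun h2 => absurd h2 hx⟩
        choose c C hc hcC using h1
        by_cases htne : t.Nonempty
        · obtain ⟨x₀, hx₀, hmin⟩ := t.exists_min_image c htne
          obtain ⟨x₁, hx₁, hmax⟩ := t.exists_max_image C htne
          refine ⟨c x₀, C x₁, hc x₀, ?_⟩
          have h2 : ∀ᵐ y : E n, ∀ x ∈ t, y ∈ closedBall x (ρ x) → DifferentiableAt ℝ f y ∧
              ∀ v : E n, c x * ‖v‖ ≤ ‖fderiv ℝ f y v‖ ∧ ‖fderiv ℝ f y v‖ ≤ C x * ‖v‖ :=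
            (Finset.eventually_all t).2 fun x hx => hcC x hx
          filter_upwards [h2] with y hy hyK
          have h3 := hKt hyK
          simp only [mem_iUnion] at h3
          obtain ⟨x, hx, hyx⟩ := h3
          obtain ⟨h4, h5⟩ := hy x hx hyx
          refine ⟨h4, fun v => ⟨le_trans ?_ (h5 v).1, (h5 v).2.trans ?_⟩⟩
          · exact mul_le_mul_of_nonneg_right (hmin x hx) (norm_nonneg _)
          · exact mul_le_mul_of_nonneg_right (hmax x hx) (norm_nonneg _)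
        · refine ⟨1, 1, one_pos, Eventually.of_forall fun y hyK => ?_⟩
          have h3 := hKt hyK
          rw [Finset.not_nonempty_iff_eq_empty.1 htne] at h3
          simp at h3
      · intro K hK hKΩ
        classical
        obtain ⟨t, ρ, ht, hKt⟩ := hcomp K hK hKΩ
        have h1 : ∀ x : E n, ∃ N : ℕ, x ∈ t → ∀ (ζ : E n) (s : Finset (E n)),
            (∀ y ∈ s, y ∈ closedBall x (ρ x)) → (∀ y ∈ s, f y = ζ) → s.card ≤ N := by
          intro x
          by_cases hx : x ∈ t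
          · obtain ⟨-, -, Γ, hΓ, hb⟩ := ht x hx
            obtain ⟨N, hN⟩ := hb.disc _ (isCompact_closedBall _ _) hΓ
            exact ⟨N, fun _ => hN⟩
          · exact ⟨0, fun h2 => absurd h2 hx⟩
        choose N hN using h1
        refine ⟨∑ x ∈ t, N x, fun ζ s hs hs' => ?_⟩
        have h2 : s ⊆ t.biUnion fun x => s.filter fun y => y ∈ closedBall x (ρ x) := by
          intro y hy
          have h3 := hKt (hs y hy)
          simp only [mem_iUnion] at h3
          obtain ⟨x, hx, hyx⟩ := h3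
          exact Finset.mem_biUnion.2 ⟨x, hx, Finset.mem_filter.2 ⟨hy, hyx⟩⟩
        calc s.card ≤ (t.biUnion fun x => s.filter fun y => y ∈ closedBall x (ρ x)).card :=
              Finset.card_le_card h2
          _ ≤ ∑ x ∈ t, (s.filter fun y => y ∈ closedBall x (ρ x)).card := Finset.card_biUnion_le
          _ ≤ ∑ x ∈ t, N x := by
              refine Finset.sum_le_sum fun x hx => hN x hx ζ _ ?_ ?_
              · intro y hy
                exact (Finset.mem_filter.1 hy).2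
              · intro y hy
                exact hs' y (Finset.mem_filter.1 hy).1
    refine ⟨?_, hB⟩
    refine hopen fun y => ?_
    by_contra hcon
    obtain ⟨x, hx⟩ := nonempty_iff_ne_empty.2 hcon
    have hxΩ : x ∈ Ω := (interior_subset hx).1
    obtain ⟨z, hz1, hz2⟩ := mem_closure_iff.1 (hΩcl hxΩ) _ isOpen_interior hx
    obtain ⟨r, hr, hrs⟩ := Metric.isOpen_iff.1 (isOpen_interior.inter hΩ₁) z ⟨hz1, hz2⟩
    have hfy : ∀ t ∈ ball z r, f t = y := fun t ht => (interior_subset (hrs ht).1).2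
    exact bld_not_const hn1' hB hr (fun t ht => (hrs ht).2) fun t ht => by
      rw [hfy t ht, hfy z (mem_ball_self hr)]

end Pool.Agent.Lib.MP_abd978_an.UN.H10
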