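import Pool.Agent.Lib.MP_abd978_an.UN.H10.Lin

/-!
# Project UNW: FROZ
-/

set_option autoImplicit false

open MeasureTheory Metric Set Filter Topology ContDiff
open scoped Gradient RealInnerProductSpace NNReal ENNReal

namespace Pool.Agent.Lib.MP_abd978_an.UN.H10

theorem frz_of_op {n : ℕ} {p : ℝ} {a : E n → E n → E n} {α β : ℝ} (h : Op p volume a α β)
    (z : E n) : Frz p (a z) :=
  ⟨h.cont z, h.mono z, fun l ξ hl => h.hom z l ξ hl, h.neg z⟩

theorem frz_conj {n : ℕ} {p : ℝ} {b : E n → E n} (h : Frz p b) {L : E n →L[ℝ] E n}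
    (hinj : Function.Injective (ContinuousLinearMap.adjoint L)) :
    Frz p fun ξ => L (b (ContinuousLinearMap.adjoint L ξ)) := by
  refine ⟨?_, ?_, ?_, ?_⟩
  · exact L.continuous.comp (h.cont.comp (ContinuousLinearMap.adjoint L).continuous)
  · intro ξ η hne
    have h1 := h.mono (ContinuousLinearMap.adjoint L ξ) (ContinuousLinearMap.adjoint L η)
      (fun h2 => hne (hinj h2))
    rw [← map_sub, ContinuousLinearMap.adjoint_inner_right, map_sub] at h1
    exact h1
  · intro l ξ hl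
    show L (b (ContinuousLinearMap.adjoint L (l • ξ))) = _
    rw [map_smul, h.hom l _ hl, map_smul]
  · intro ξ
    show L (b (ContinuousLinearMap.adjoint L (-ξ))) = _
    rw [map_neg, h.neg, map_neg]

theorem grad_comp_lin {n : ℕ} {u : E n → ℝ} (hu : Differentiable ℝ u) (L : E n →L[ℝ] E n)
    (y : E n) : ∇ (fun y => u (L y)) y = ContinuousLinearMap.adjoint L (∇ u (L y)) := by
  have h1 : HasFDerivAt (fun y => u (L y)) ((fderiv ℝ u (L y)).comp L) y :=
    (hu (L y)).hasFDerivAt.comp y L.hasFDerivAt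
  refine ext_inner_right ℝ fun w => ?_
  rw [grad_of_hasFDerivAt h1, grad_eq, ContinuousLinearMap.adjoint_inner_left,
    InnerProductSpace.toDual_symm_apply, InnerProductSpace.toDual_symm_apply]
  rfl

theorem integral_comp_lin {n : ℕ} {L : E n →L[ℝ] E n} {c : ℝ} (hc : 0 < c)
    (h : ∀ v, c * ‖v‖ ≤ ‖L v‖) (g : E n → ℝ) (hg : ∫ y, g (L y) = 0) : ∫ x, g x = 0 := by
  have hdet : L.det ≠ 0 := by
    intro h0
    have h1 := pow_le_det hc h
    rw [h0, abs_zero] at h1
    have h2 : 0 < c ^ n := by positivity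
    linarith
  have hdet' : LinearMap.det (L : E n →ₗ[ℝ] E n) ≠ 0 := hdet
  have h1 := Measure.map_linearMap_addHaar_eq_smul_addHaar (volume : Measure (E n)) hdet'
  have hemb : MeasurableEmbedding (L : E n → E n) := by
    have h2 : Topology.IsClosedEmbedding (L : E n → E n) := by
      refine LinearMap.isClosedEmbedding_of_injective (f := (L : E n →ₗ[ℝ] E n)) ?_
      exact LinearMap.ker_eq_bot.2 (bij_of_lower hc h).1
    exact h2.measurableEmbedding
  have h3 : ∫ x, g x ∂(Measure.map (L : E n → E n) volume) = 0 := by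
    rw [hemb.integral_map]
    exact hg
  have h4 : Measure.map (L : E n → E n) volume =
      ENNReal.ofReal |(LinearMap.det (L : E n →ₗ[ℝ] E n))⁻¹| • (volume : Measure (E n)) := h1
  rw [h4, integral_smul_measure, ENNReal.toReal_ofReal (abs_nonneg _), smul_eq_mul] at h3
  rcases mul_eq_zero.1 h3 with h5 | h5
  · exact absurd h5 (abs_ne_zero.2 (inv_ne_zero hdet'))
  · exact h5

theorem froz (hdir : DirappStatement) (hstab : StabStatement) (hriga : RigaStatement)
    (hrigb : RigbStatement) (hscale : ScaleStatement) : FrozStatement := by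
  intro n p a α β b α' β' hD Ω f hM x₀ c hx₀ hc hdiff hL0 hlow hlb hla
  have hn2 : (2 : ℝ) ≤ n := by exact_mod_cast hD.hn
  have hp2 : 2 < p := lt_of_le_of_lt hn2 hD.hp
  set L := fderiv ℝ f x₀ with hL
  have hLn : 0 < ‖L‖ := norm_pos_iff.2 hL0
  set c₁ : ℝ := c * ‖L‖ with hc₁
  have hc₁' : 0 < c₁ := by positivity
  have hadj : ∀ v, c₁ * ‖v‖ ≤ ‖ContinuousLinearMap.adjoint L v‖ := hlow
  have hlow' : ∀ v, c₁ * ‖v‖ ≤ ‖L v‖ := lower_of_adjoint hc₁' hadj
  have hFA : Frz p (a (f x₀)) := frz_of_op hD.opa _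
  have hFB : Frz p fun ξ => L (b x₀ (ContinuousLinearMap.adjoint L ξ)) :=
    frz_conj (frz_of_op hD.opb x₀) (bij_of_lower hc₁' hadj).1
  refine hrigb n p (a (f x₀)) _ hD.hn hp2 hFA hFB
    (hriga n p (a (f x₀)) _ hD.hn (by linarith) hFA hFB ?_)
  intro s u hs hu hA
  have hud : Differentiable ℝ u := hu.differentiable one_ne_zero
  set t : ℝ := s / (2 * ‖L‖) with ht
  have ht0 : 0 < t := by positivity
  have hv₀ : ContDiff ℝ 1 fun y => u (L y) := hu.comp L.contDiff
  have key := hstab n p b α' β' x₀ t (fun y => u (L y)) (by have := hD.hn; omega) hD.opb hlb ht0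
    hv₀ ?_
  · refine ⟨c₁ * t, by positivity, fun φ hφ => ?_⟩
    have hφd : Differentiable ℝ φ := hφ.1.differentiable (by simp)
    -- the test function `φ ∘ L`
    have htest : Test (ball 0 t) fun y => φ (L y) := by
      have hts : tsupport (fun y => φ (L y)) ⊆ L ⁻¹' tsupport φ := by
        refine closure_minimal ?_ ((isClosed_tsupport φ).preimage L.continuous)
        intro y hy
        exact subset_tsupport φ hy
      have hsub : tsupport (fun y => φ (L y)) ⊆ ball 0 t := by
        intro y hy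
        have h1 := hφ.2.2 (hts hy)
        rw [mem_ball_zero_iff] at h1 ⊢
        have h2 := hlow' y
        by_contra hcon
        push Not at hcon
        have h3 : c₁ * t ≤ c₁ * ‖y‖ := by gcongr
        linarith
      refine ⟨hφ.1.comp L.contDiff, ?_, hsub⟩
      have h4 : Bornology.IsBounded (tsupport fun y => φ (L y)) := isBounded_ball.subset hsub
      exact isCompact_of_isClosed_isBounded (isClosed_tsupport _) h4
    have h1 := key _ htest
    refine integral_comp_lin hc₁' hlow' _ ?_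
    rw [← h1]
    refine integral_congr_ae (Eventually.of_forall fun y => ?_)
    show ⟪L (b x₀ (ContinuousLinearMap.adjoint L (∇ u (L y)))), ∇ φ (L y)⟫ =
      ⟪b x₀ (∇ (fun y => u (L y)) y), ∇ (fun y => φ (L y)) y⟫
    rw [grad_comp_lin hud, grad_comp_lin hφd, ContinuousLinearMap.adjoint_inner_right]
  · intro δ hδ
    have hd := hdir n p a α β (f x₀) s u hD.hn hD.hp hD.opa hla hs hu hA (δ / 2) (half_pos hδ)
    -- uniform continuity
    obtain ⟨η, hη, hη'⟩ : ∃ η : ℝ, 0 < η ∧ ∀ y ∈ closedBall (0 : E n) s,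
        ∀ z ∈ closedBall (0 : E n) s, dist y z < η → |u y - u z| ≤ δ / 2 := by
      have h1 := (isCompact_closedBall (0 : E n) s).uniformContinuousOn_of_continuous
        hu.continuous.continuousOn
      rw [Metric.uniformContinuousOn_iff] at h1
      obtain ⟨η, hη, h2⟩ := h1 (δ / 2) (half_pos hδ)
      exact ⟨η, hη, fun y hy z hz h3 => (h2 y hy z hz h3).le⟩
    -- differentiability
    set κ : ℝ := min (η / (2 * t)) (‖L‖ / 2) with hκ
    have hκ0 : 0 < κ := by positivity
    have h1 : ∀ᶠ x in 𝓝 x₀, ‖f x - f x₀ - L (x - x₀)‖ ≤ κ * ‖x - x₀‖ :=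
      hdiff.hasFDerivAt.isLittleO.def hκ0
    have h2 : ∀ᶠ x in 𝓝 x₀, x ∈ Ω := hM.isOpen.mem_nhds hx₀
    obtain ⟨ρ, hρ, hρ'⟩ := Metric.eventually_nhds_iff_ball.1 (h1.and h2)
    have h3 : ∀ᶠ r : ℝ in 𝓝[>] 0, r * t < ρ := by
      have h4 : Tendsto (fun r : ℝ => r * t) (𝓝[>] 0) (𝓝 0) := by
        have h5 : Tendsto (fun r : ℝ => r * t) (𝓝 0) (𝓝 (0 * t)) :=
          (continuous_id.mul continuous_const).tendsto 0
        rw [zero_mul] at h5
        exact h5.mono_left nhdsWithin_le_nhds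
      exact h4.eventually (gt_mem_nhds hρ)
    filter_upwards [hd, h3, self_mem_nhdsWithin] with r hr1 hr2 hr3
    have hr0 : 0 < r := hr3
    obtain ⟨ur, hur, hur'⟩ := hr1
    -- the function on the target
    have h4 : Harm volume p a (ball (f x₀) (r * s)) fun z => ur (r⁻¹ • (z - f x₀)) := by
      rw [(hscale n p a α β (f x₀) r hr0 hD.opa).2 _ _ isOpen_ball]
      have h5 : ((fun y => f x₀ + r • y) ⁻¹' ball (f x₀) (r * s)) = ball (0 : E n) s := by
        ext y
        rw [mem_preimage, mem_ball, mem_ball_zero_iff, dist_eq_norm, add_sub_cancel_left,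
          norm_smul, Real.norm_of_nonneg hr0.le]
        exact mul_lt_mul_iff_right₀ hr0
      have h6 : (fun y : E n => ur (r⁻¹ • (f x₀ + r • y - f x₀))) = ur := by
        funext y
        rw [add_sub_cancel_left, smul_smul, inv_mul_cancel₀ hr0.ne', one_smul]
      rw [h5, h6]
      exact hur
    have h5 := hM.mor _ _ isOpen_ball h4
    have hopen : IsOpen (Ω ∩ f ⁻¹' ball (f x₀) (r * s)) :=
      hM.cont.isOpen_inter_preimage hM.isOpen isOpen_ball
    rw [(hscale n p b α' β' x₀ r hr0 hD.opb).2 _ _ hopen] at h5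
    -- estimates
    have hest : ∀ y ∈ ball (0 : E n) t, x₀ + r • y ∈ Ω ∧
        ‖r⁻¹ • (f (x₀ + r • y) - f x₀) - L y‖ ≤ κ * ‖y‖ := by
      intro y hy
      rw [mem_ball_zero_iff] at hy
      have h6 : x₀ + r • y ∈ ball x₀ ρ := by
        rw [mem_ball, dist_eq_norm, add_sub_cancel_left, norm_smul, Real.norm_of_nonneg hr0.le]
        exact lt_of_le_of_lt (by gcongr) hr2
      obtain ⟨h7, h8⟩ := hρ' _ h6
      refine ⟨h8, ?_⟩
      rw [add_sub_cancel_left, map_smul] at h7
      have h9 : r⁻¹ • (f (x₀ + r • y) - f x₀) - L y =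
          r⁻¹ • (f (x₀ + r • y) - f x₀ - r • L y) := by
        rw [smul_sub _ _ (r • L y), smul_smul, inv_mul_cancel₀ hr0.ne', one_smul]
      rw [h9, norm_smul, norm_inv, Real.norm_of_nonneg hr0.le]
      rw [norm_smul, Real.norm_of_nonneg hr0.le] at h7
      rw [inv_mul_le_iff₀ hr0]
      linarith
    have hg : ∀ y ∈ ball (0 : E n) t, ‖r⁻¹ • (f (x₀ + r • y) - f x₀)‖ < s := by
      intro y hy
      have h6 := (hest y hy).2
      rw [mem_ball_zero_iff] at hy
      have h7 : ‖r⁻¹ • (f (x₀ + r • y) - f x₀)‖ ≤ κ * ‖y‖ + ‖L y‖ := by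
        have := norm_sub_norm_le (r⁻¹ • (f (x₀ + r • y) - f x₀)) (L y)
        linarith
      have h8 : ‖L y‖ ≤ ‖L‖ * ‖y‖ := L.le_opNorm y
      have h9 : κ ≤ ‖L‖ := (min_le_right _ _).trans (half_le_self hLn.le)
      have h10 : κ * ‖y‖ ≤ ‖L‖ * ‖y‖ := by gcongr
      have h11 : ‖L‖ * ‖y‖ < ‖L‖ * t := mul_lt_mul_of_pos_left hy hLn
      have h12 : 2 * (‖L‖ * t) = s := by
        rw [ht]
        field_simp
      linarith
    refine ⟨fun y => ur (r⁻¹ • (f (x₀ + r • y) - f x₀)), ?_, ?_⟩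
    · refine Harm.mono h5 ?_
      intro y hy
      refine ⟨(hest y hy).1, ?_⟩
      rw [mem_preimage, mem_ball, dist_eq_norm]
      have h6 := hg y hy
      rw [norm_smul, norm_inv, Real.norm_of_nonneg hr0.le, inv_mul_lt_iff₀ hr0] at h6
      exact h6
    · intro y hy
      have h6 := hg y hy
      have h7 := hur' (r⁻¹ • (f (x₀ + r • y) - f x₀)) (mem_ball_zero_iff.2 h6)
      have hyt : ‖y‖ < t := mem_ball_zero_iff.1 hy
      have h8 : ‖L y‖ ≤ s := by
        calc ‖L y‖ ≤ ‖L‖ * ‖y‖ := L.le_opNorm y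
          _ ≤ ‖L‖ * t := by gcongr
          _ ≤ s := by
              rw [ht]
              have h12 : ‖L‖ * (s / (2 * ‖L‖)) = s / 2 := by field_simp
              rw [h12]
              linarith
      have h9 : dist (r⁻¹ • (f (x₀ + r • y) - f x₀)) (L y) < η := by
        rw [dist_eq_norm]
        refine lt_of_le_of_lt (hest y hy).2 ?_
        calc κ * ‖y‖ ≤ η / (2 * t) * t := by
              gcongr
              exact min_le_left _ _
          _ = η / 2 := by field_simp
          _ < η := half_lt_self hη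
      have h10 := hη' _ (mem_closedBall_zero_iff.2 h6.le) _ (mem_closedBall_zero_iff.2 h8) h9
      show |ur (r⁻¹ • (f (x₀ + r • y) - f x₀)) - u (L y)| ≤ δ
      calc |ur (r⁻¹ • (f (x₀ + r • y) - f x₀)) - u (L y)|
          = |(ur (r⁻¹ • (f (x₀ + r • y) - f x₀)) - u (r⁻¹ • (f (x₀ + r • y) - f x₀))) +
            (u (r⁻¹ • (f (x₀ + r • y) - f x₀)) - u (L y))| := by congr 1; ring
        _ ≤ δ / 2 + δ / 2 := (abs_add_le _ _).trans (add_le_add h7 h10)
        _ = δ := add_halves δ

end Pool.Agent.Lib.MP_abd978_an.UN.H10
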