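import Pool.Agent.Lib.MP_abd978_an.UN.H10.Dist

/-!
# Project UNW: MASS, DISC
-/

set_option autoImplicit false

open MeasureTheory Metric Set Filter Topology ContDiff
open scoped Gradient RealInnerProductSpace NNReal ENNReal

namespace Pool.Agent.Lib.MP_abd978_an.UN.H10

/-- packing of balls -/
theorem packing {n : ℕ} {p CM : ℝ} (hn : 1 ≤ n) (hp : (n : ℝ) < p) (hCM : 0 < CM)
    (hM : ∀ (x₀ : E n) (ρ : ℝ) (u : E n → ℝ) (v : E n → E n), 0 < ρ →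
      ContinuousOn u (ball x₀ ρ) → IsSob volume p (ball x₀ ρ) u v → ∀ x ∈ ball x₀ ρ,
      ∀ y ∈ ball x₀ ρ, |u x - u y| ≤ CM * ρ ^ (1 - n / p) * (∫ z in ball x₀ ρ, ‖v z‖ ^ p) ^ (1 / p))
    {G : Set (E n)} (hG : IsOpen G) {θ : E n → ℝ} {v : E n → E n} (hθ : IsSob volume p G θ v)
    (hθc : ContinuousOn θ G) (s : Finset (E n)) (r : E n → ℝ) (hr : ∀ x ∈ s, 0 < r x)
    (hrG : ∀ x ∈ s, ball x (r x) ⊆ G)
    (hdisj : (s : Set (E n)).PairwiseDisjoint fun x => ball x (r x))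
    (h0 : ∀ x ∈ s, θ x = 0) (h1 : ∀ x ∈ s, ∃ z ∈ ball x (r x), θ z = 1) :
    ∑ x ∈ s, r x ^ ((n : ℝ) - p) ≤ CM ^ p * ∫ x in G, ‖v x‖ ^ p := by
  have hn1 : (1 : ℝ) ≤ n := by exact_mod_cast hn
  have hp0 : 0 < p := by linarith
  have hint : IntegrableOn (fun x => ‖v x‖ ^ p) G volume := by
    have h2 := hθ.2.1.integrable_norm_rpow (by simpa using hp0) ENNReal.ofReal_ne_top
    rw [ENNReal.toReal_ofReal hp0.le] at h2
    exact h2
  have hone : ∀ x ∈ s, r x ^ ((n : ℝ) - p) ≤ CM ^ p * ∫ y in ball x (r x), ‖v y‖ ^ p := by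
    intro x hx
    obtain ⟨z, hz, hz1⟩ := h1 x hx
    have hrx := hr x hx
    have h2 := hM x (r x) θ v hrx (hθc.mono (hrG x hx)) (hθ.mono (hrG x hx)) z hz x
      (mem_ball_self hrx)
    rw [hz1, h0 x hx, sub_zero, abs_one] at h2
    set I : ℝ := ∫ y in ball x (r x), ‖v y‖ ^ p with hI
    have hI0 : 0 ≤ I := integral_nonneg fun y => by positivity
    have h3 : (1 : ℝ) ^ p ≤ (CM * r x ^ (1 - (n : ℝ) / p) * I ^ (1 / p)) ^ p :=
      Real.rpow_le_rpow zero_le_one h2 hp0.le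
    rw [Real.one_rpow, Real.mul_rpow (by positivity) (by positivity),
      Real.mul_rpow hCM.le (by positivity), ← Real.rpow_mul hrx.le, ← Real.rpow_mul hI0,
      one_div_mul_cancel hp0.ne', Real.rpow_one] at h3
    have h4 : (1 - (n : ℝ) / p) * p = p - n := by field_simp
    rw [h4] at h3
    have h5 : r x ^ ((n : ℝ) - p) * r x ^ (p - (n : ℝ)) = 1 := by
      rw [← Real.rpow_add hrx]
      ring_nf
      exact Real.rpow_zero _
    calc r x ^ ((n : ℝ) - p) = r x ^ ((n : ℝ) - p) * 1 := (mul_one _).symm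
      _ ≤ r x ^ ((n : ℝ) - p) * (CM ^ p * r x ^ (p - (n : ℝ)) * I) := by gcongr
      _ = CM ^ p * (r x ^ ((n : ℝ) - p) * r x ^ (p - (n : ℝ))) * I := by ring
      _ = CM ^ p * I := by rw [h5, mul_one]
  calc ∑ x ∈ s, r x ^ ((n : ℝ) - p) ≤ ∑ x ∈ s, CM ^ p * ∫ y in ball x (r x), ‖v y‖ ^ p :=
        Finset.sum_le_sum hone
    _ = CM ^ p * ∑ x ∈ s, ∫ y in ball x (r x), ‖v y‖ ^ p := by rw [Finset.mul_sum]
    _ = CM ^ p * ∫ y in ⋃ x ∈ s, ball x (r x), ‖v y‖ ^ p := by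
        rw [integral_biUnion_finset s (fun x _ => measurableSet_ball) hdisj
          fun x hx => hint.mono_set (hrG x hx)]
    _ ≤ CM ^ p * ∫ y in G, ‖v y‖ ^ p := by
        refine mul_le_mul_of_nonneg_left ?_ (by positivity)
        exact setIntegral_mono_set hint (Eventually.of_forall fun y => by positivity)
          (iUnion₂_subset fun x hx => hrG x hx).eventuallyLE

theorem tendsto_lin (c : ℝ) : Tendsto (fun ε : ℝ => c * ε) (𝓝[>] 0) (𝓝 0) := by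
  have h5 : Tendsto (fun ε : ℝ => c * ε) (𝓝 0) (𝓝 (c * 0)) :=
    (continuous_const.mul continuous_id).tendsto 0
  rw [mul_zero] at h5
  exact h5.mono_left nhdsWithin_le_nhds

theorem ev_lt (c : ℝ) {d : ℝ} (hd : 0 < d) : ∀ᶠ ε : ℝ in 𝓝[>] 0, c * ε < d :=
  (tendsto_lin c).eventually (gt_mem_nhds hd)

theorem mass (hcapf : CapfStatement) (hmo : MorreyStatement) : MassStatement := by
  intro n p a α β b α' β' hD Ω f hM K hK hKΩ
  classical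
  have hn : 1 ≤ n := by have := hD.hn; omega
  have hp := hD.hp
  have hn1 : (1 : ℝ) ≤ n := by exact_mod_cast hn
  have hp0 : 0 < p := by linarith
  obtain ⟨G, hG, hKG, hGΩ, hGc⟩ := exists_open_between_and_isCompact_closure hK hM.isOpen hKΩ
  obtain ⟨C₁, hC₁, hcap⟩ := hcapf n p a α β b α' β' hD Ω f hM G hG hGc hGΩ
  obtain ⟨C₂, hC₂, hmor⟩ := hmo n p hn hp
  refine ⟨4 ^ (p - n) * (C₂ ^ p * C₁), by positivity, fun ζ s hs hs' => ?_⟩
  set s' := s.filter fun x => fderiv ℝ f x ≠ 0 with hs'def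
  have hsum : ∑ x ∈ s, ‖fderiv ℝ f x‖ ^ (p - n) = ∑ x ∈ s', ‖fderiv ℝ f x‖ ^ (p - n) := by
    rw [hs'def, Finset.sum_filter_of_ne]
    intro x hx hne h0
    apply hne
    rw [h0, norm_zero, Real.zero_rpow (by linarith)]
  rw [hsum]
  have hmem : ∀ x ∈ s', x ∈ K ∧ f x = ζ ∧ DifferentiableAt ℝ f x ∧ 0 < ‖fderiv ℝ f x‖ := by
    intro x hx
    obtain ⟨h1, h2⟩ := Finset.mem_filter.1 hx
    exact ⟨hs x h1, (hs' x h1).1, (hs' x h1).2, norm_pos_iff.2 h2⟩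
  -- small radii
  have hev1 : ∀ᶠ ε : ℝ in 𝓝[>] 0, ∀ x ∈ s', ball x (4 * ε / ‖fderiv ℝ f x‖) ⊆ G ∧
      ∃ z ∈ ball x (4 * ε / ‖fderiv ℝ f x‖), ε ≤ dist (f z) ζ := by
    refine (Finset.eventually_all s').2 fun x hx => ?_
    obtain ⟨hxK, hxζ, hxd, hxL⟩ := hmem x hx
    set L := fderiv ℝ f x with hL
    have h1 : ∀ᶠ z in 𝓝 x, ‖f z - f x - L (z - x)‖ ≤ (‖L‖ / 6) * ‖z - x‖ :=
      hxd.hasFDerivAt.isLittleO.def (by positivity)
    obtain ⟨ρ, hρ, hρ'⟩ := Metric.eventually_nhds_iff_ball.1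
      (h1.and (hG.mem_nhds (hKG hxK)))
    filter_upwards [ev_lt (4 / ‖L‖) hρ, self_mem_nhdsWithin] with ε h2 h3
    have hε : 0 < ε := h3
    have h4 : 4 * ε / ‖L‖ < ρ := by
      calc 4 * ε / ‖L‖ = 4 / ‖L‖ * ε := by ring
        _ < ρ := h2
    have h5 : ball x (4 * ε / ‖L‖) ⊆ ball x ρ := ball_subset_ball h4.le
    refine ⟨fun z hz => (hρ' z (h5 hz)).2, ?_⟩
    obtain ⟨e, he, hLe⟩ := exists_unit (norm_pos_iff.1 hxL)
    have hzx : x + (3 * ε / ‖L‖) • e - x = (3 * ε / ‖L‖) • e := add_sub_cancel_left _ _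
    have hzn : ‖(3 * ε / ‖L‖) • e‖ = 3 * ε / ‖L‖ := by
      rw [norm_smul, he, mul_one, Real.norm_of_nonneg (by positivity)]
    have hzb : x + (3 * ε / ‖L‖) • e ∈ ball x (4 * ε / ‖L‖) := by
      rw [mem_ball, dist_eq_norm, hzx, hzn]
      gcongr
      norm_num
    refine ⟨_, hzb, ?_⟩
    have h6 := (hρ' _ (h5 hzb)).1
    rw [hzx, hzn, map_smul] at h6
    have h7 : ‖(3 * ε / ‖L‖) • L e‖ = 3 * ε / ‖L‖ * ‖L e‖ := by
      rw [norm_smul, Real.norm_of_nonneg (by positivity)]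
    have h8 : 3 * ε / ‖L‖ * (‖L‖ / 2) ≤ 3 * ε / ‖L‖ * ‖L e‖ := by gcongr
    have h9 : 3 * ε / ‖L‖ * (‖L‖ / 2) = 3 * ε / 2 := by field_simp
    have h10 : ‖L‖ / 6 * (3 * ε / ‖L‖) = ε / 2 := by field_simp; ring
    have h11 := norm_sub_norm_le ((3 * ε / ‖L‖) • L e) (f (x + (3 * ε / ‖L‖) • e) - f x)
    rw [← norm_neg ((3 * ε / ‖L‖) • L e - (f (x + (3 * ε / ‖L‖) • e) - f x)), neg_sub] at h11
    rw [← hxζ, dist_eq_norm]
    rw [h10] at h6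
    rw [h9] at h8
    linarith
  have hev2 : ∀ᶠ ε : ℝ in 𝓝[>] 0, ∀ x ∈ s', ∀ y ∈ s', x ≠ y →
      4 * ε / ‖fderiv ℝ f x‖ + 4 * ε / ‖fderiv ℝ f y‖ ≤ dist x y := by
    refine (Finset.eventually_all s').2 fun x hx => (Finset.eventually_all s').2 fun y hy => ?_
    by_cases hxy : x = y
    · exact Eventually.of_forall fun ε h => absurd hxy h
    · filter_upwards [ev_lt (4 / ‖fderiv ℝ f x‖ + 4 / ‖fderiv ℝ f y‖) (dist_pos.2 hxy)]
        with ε h1 _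
      calc 4 * ε / ‖fderiv ℝ f x‖ + 4 * ε / ‖fderiv ℝ f y‖ =
          (4 / ‖fderiv ℝ f x‖ + 4 / ‖fderiv ℝ f y‖) * ε := by ring
        _ ≤ dist x y := h1.le
  obtain ⟨ε, ⟨h1, h2⟩, h3⟩ := ((hev1.and hev2).and self_mem_nhdsWithin).exists
  have hε : 0 < ε := h3
  obtain ⟨θ, v, hθ, hθc, hθ0, hθ1, hθe⟩ := hcap ζ ε hε
  have h4 := packing hn hp hC₂ hmor hG hθ hθc s' (fun x => 4 * ε / ‖fderiv ℝ f x‖)
    (fun x hx => by have := (hmem x hx).2.2.2; positivity) (fun x hx => (h1 x hx).1)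
    (fun x hx y hy hxy => ball_disjoint_ball (h2 x hx y hy hxy))
    (fun x hx => hθ0 x (hKG (hmem x hx).1) (hmem x hx).2.1)
    (fun x hx => by
      obtain ⟨z, hz, hz'⟩ := (h1 x hx).2
      exact ⟨z, hz, hθ1 z ((h1 x hx).1 hz) hz'⟩)
  have h5 : ∀ x ∈ s', (4 * ε / ‖fderiv ℝ f x‖) ^ ((n : ℝ) - p) =
      (4 * ε) ^ ((n : ℝ) - p) * ‖fderiv ℝ f x‖ ^ (p - n) := by
    intro x hx
    have hxL := (hmem x hx).2.2.2
    rw [Real.div_rpow (by positivity) hxL.le, div_eq_mul_inv, ← Real.rpow_neg hxL.le, neg_sub]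
  rw [Finset.sum_congr rfl h5, ← Finset.mul_sum] at h4
  have h6 : (4 * ε) ^ ((n : ℝ) - p) = (4 : ℝ) ^ ((n : ℝ) - p) * ε ^ ((n : ℝ) - p) :=
    Real.mul_rpow (by norm_num) hε.le
  have h7 : (4 : ℝ) ^ ((n : ℝ) - p) * 4 ^ (p - (n : ℝ)) = 1 := by
    rw [← Real.rpow_add (by norm_num)]
    ring_nf
    exact Real.rpow_zero _
  have h8 : (0 : ℝ) < ε ^ ((n : ℝ) - p) := by positivity
  have h9 : (0 : ℝ) < 4 ^ (p - (n : ℝ)) := by positivity
  set S : ℝ := ∑ x ∈ s', ‖fderiv ℝ f x‖ ^ (p - n) with hS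
  have h10 : ε ^ ((n : ℝ) - p) * ((4 : ℝ) ^ ((n : ℝ) - p) * S) ≤
      ε ^ ((n : ℝ) - p) * (C₂ ^ p * C₁) := by
    calc ε ^ ((n : ℝ) - p) * ((4 : ℝ) ^ ((n : ℝ) - p) * S) = (4 * ε) ^ ((n : ℝ) - p) * S := by
          rw [h6]; ring
      _ ≤ C₂ ^ p * ∫ x in G, ‖v x‖ ^ p := h4
      _ ≤ C₂ ^ p * (C₁ * ε ^ ((n : ℝ) - p)) := by gcongr
      _ = _ := by ring
  have h11 := le_of_mul_le_mul_left h10 h8
  calc S = 4 ^ (p - (n : ℝ)) * ((4 : ℝ) ^ ((n : ℝ) - p) * S) := by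
        rw [← mul_assoc, mul_comm (4 ^ (p - (n : ℝ))), h7, one_mul]
    _ ≤ 4 ^ (p - (n : ℝ)) * (C₂ ^ p * C₁) := by gcongr

theorem disc (hcapf : CapfStatement) (hmo : MorreyStatement) : DiscStatement := by
  intro n p a α β b α' β' hD Ω f hM K hK hKΩ c r₀ hc hr₀ hcr
  classical
  have hn : 1 ≤ n := by have := hD.hn; omega
  have hp := hD.hp
  have hn1 : (1 : ℝ) ≤ n := by exact_mod_cast hn
  have hp0 : 0 < p := by linarith
  obtain ⟨G, hG, hKG, hGΩ, hGc⟩ := exists_open_between_and_isCompact_closure hK hM.isOpen hKΩ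
  obtain ⟨C₁, hC₁, hcap⟩ := hcapf n p a α β b α' β' hD Ω f hM G hG hGc hGΩ
  obtain ⟨C₂, hC₂, hmor⟩ := hmo n p hn hp
  refine ⟨⌈(2 / c) ^ (p - n) * (C₂ ^ p * C₁)⌉₊, fun ζ s hs hs' => ?_⟩
  have hev1 : ∀ᶠ ε : ℝ in 𝓝[>] 0, ∀ x ∈ s, ball x (2 * ε / c) ⊆ G := by
    refine (Finset.eventually_all s).2 fun x hx => ?_
    obtain ⟨ρ, hρ, hρ'⟩ := Metric.isOpen_iff.1 hG x (hKG (hs x hx))
    filter_upwards [ev_lt (2 / c) hρ] with ε h2
    refine (ball_subset_ball ?_).trans hρ'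
    calc 2 * ε / c = 2 / c * ε := by ring
      _ ≤ ρ := h2.le
  have hev2 : ∀ᶠ ε : ℝ in 𝓝[>] 0, ∀ x ∈ s, ∀ y ∈ s, x ≠ y →
      2 * ε / c + 2 * ε / c ≤ dist x y := by
    refine (Finset.eventually_all s).2 fun x hx => (Finset.eventually_all s).2 fun y hy => ?_
    by_cases hxy : x = y
    · exact Eventually.of_forall fun ε h => absurd hxy h
    · filter_upwards [ev_lt (2 / c + 2 / c) (dist_pos.2 hxy)] with ε h1 _
      calc 2 * ε / c + 2 * ε / c = (2 / c + 2 / c) * ε := by ring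
        _ ≤ dist x y := h1.le
  obtain ⟨ε, ⟨⟨h1, h2⟩, h2'⟩, h3⟩ :=
    (((hev1.and hev2).and (ev_lt (1 / c) hr₀)).and self_mem_nhdsWithin).exists
  have hε : 0 < ε := h3
  obtain ⟨θ, v, hθ, hθc, hθ0, hθ1, hθe⟩ := hcap ζ ε hε
  have h4 := packing hn hp hC₂ hmor hG hθ hθc s (fun _ => 2 * ε / c)
    (fun x hx => by positivity) h1
    (fun x hx y hy hxy => ball_disjoint_ball (h2 x hx y hy hxy))
    (fun x hx => hθ0 x (hKG (hs x hx)) (hs' x hx))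
    (fun x hx => by
      obtain ⟨z, hz, hz'⟩ := hcr x (hs x hx) (ε / c) (by positivity) (by
        calc ε / c = 1 / c * ε := by ring
          _ < r₀ := h2')
      have h5 : z ∈ ball x (2 * ε / c) := by
        refine closedBall_subset_ball ?_ hz
        gcongr
        linarith
      refine ⟨z, h5, hθ1 z (h1 x hx h5) ?_⟩
      rw [hs' x hx, mul_div_cancel₀ _ hc.ne'] at hz'
      exact hz')
  rw [Finset.sum_const, nsmul_eq_mul] at h4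
  have h5 : (2 * ε / c) ^ ((n : ℝ) - p) = (2 / c) ^ ((n : ℝ) - p) * ε ^ ((n : ℝ) - p) := by
    rw [← Real.mul_rpow (by positivity) hε.le]
    congr 1
    ring
  have h7 : (2 / c) ^ ((n : ℝ) - p) * (2 / c) ^ (p - (n : ℝ)) = 1 := by
    rw [← Real.rpow_add (by positivity)]
    ring_nf
    exact Real.rpow_zero _
  have h8 : (0 : ℝ) < ε ^ ((n : ℝ) - p) := by positivity
  have h9 : (0 : ℝ) < (2 / c) ^ (p - (n : ℝ)) := by positivity
  have h10 : ε ^ ((n : ℝ) - p) * ((2 / c) ^ ((n : ℝ) - p) * s.card) ≤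
      ε ^ ((n : ℝ) - p) * (C₂ ^ p * C₁) := by
    calc ε ^ ((n : ℝ) - p) * ((2 / c) ^ ((n : ℝ) - p) * s.card) =
        s.card * (2 * ε / c) ^ ((n : ℝ) - p) := by rw [h5]; ring
      _ ≤ C₂ ^ p * ∫ x in G, ‖v x‖ ^ p := h4
      _ ≤ C₂ ^ p * (C₁ * ε ^ ((n : ℝ) - p)) := by gcongr
      _ = _ := by ring
  have h11 := le_of_mul_le_mul_left h10 h8
  have h12 : (s.card : ℝ) ≤ (2 / c) ^ (p - (n : ℝ)) * (C₂ ^ p * C₁) := by
    calc (s.card : ℝ) = (2 / c) ^ (p - (n : ℝ)) * ((2 / c) ^ ((n : ℝ) - p) * s.card) := by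
          rw [← mul_assoc, mul_comm ((2 / c) ^ (p - (n : ℝ))), h7, one_mul]
      _ ≤ _ := by gcongr
  have h13 := h12.trans (Nat.le_ceil _)
  exact_mod_cast h13

end Pool.Agent.Lib.MP_abd978_an.UN.H10
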