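import Pool.Agent.Lib.MP_abd978_an.UN.H10.Rad

/-!
# Project UNW: REGA
-/

set_option autoImplicit false

open MeasureTheory Metric Set Filter Topology ContDiff
open scoped Gradient RealInnerProductSpace NNReal ENNReal

namespace Pool.Agent.Lib.MP_abd978_an.UN.H10

theorem rega (hlipl : LiplStatement) (hdist : DistStatement) (hmass : MassStatement)
    (hed : EdStatement) (hleb : LebStatement) (hfroz : FrozStatement) : RegaStatement := by
  intro n p a α β b α' β' hD Ω f hM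
  have hn : 1 ≤ n := by have := hD.hn; omega
  have hn1 : (1 : ℝ) ≤ n := by exact_mod_cast hn
  have hp0 : 0 < p := by have := hD.hp; linarith
  obtain ⟨c, hc, hdis⟩ := hdist n p a α β b α' β' hD
  have hdis' := hdis Ω f hM
  have hloc : LocLip Ω f := hlipl n p a α β b α' β' hD Ω f hM
  have hdiff : ∀ᵐ x : E n, x ∈ Ω → DifferentiableAt ℝ f x := ae_diff hloc
  have hΩ := hM.isOpen
  have hα : 0 < α := hD.opa.hα
  have hβ : 0 < β := lt_of_lt_of_le hα hD.opa.hαβ
  have hα' : 0 < α' := hD.opb.hα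
  have hβ' : 0 < β' := lt_of_lt_of_le hα' hD.opb.hαβ
  -- transport
  have hED : ∀ K : Set (E n), IsCompact K → K ⊆ Ω → ∃ C' : ℝ≥0, ∀ g : E n → ℝ≥0∞,
      Measurable g → ∫⁻ x in K, g (f x) * ENNReal.ofReal (‖fderiv ℝ f x‖ ^ p) ≤
        C' * ∫⁻ z, g z := by
    intro K hK hKΩ
    obtain ⟨C, hC, hsum⟩ := hmass n p a α β b α' β' hD Ω f hM K hK hKΩ
    refine ⟨Real.toNNReal (C / c ^ n), fun g hg => ?_⟩
    have hS : MeasurableSet (K ∩ {x | DifferentiableAt ℝ f x}) :=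
      hK.measurableSet.inter (measurableSet_diff f)
    have h1 := hed n p c C f (K ∩ {x | DifferentiableAt ℝ f x}) hn hD.hp hc hC hM.meas hS
      (fun x hx => hx.2) (fun x hx η => hdis' x (hKΩ hx.1) hx.2 η)
      (fun ζ s hs hs' => hsum ζ s (fun x hx => (hs x hx).1)
        fun x hx => ⟨hs' x hx, (hs x hx).2⟩) g hg
    have h2 : (K ∩ {x | DifferentiableAt ℝ f x} : Set (E n)) =ᵐ[volume] K := by
      filter_upwards [hdiff] with x hx
      refine propext ⟨fun h => h.1, fun h => ⟨h, hx (hKΩ h)⟩⟩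
    rw [Measure.restrict_congr_set h2] at h1
    exact h1
  -- the function `m`
  set e : E n := EuclideanSpace.single ⟨0, hn⟩ 1 with he
  have hen : ‖e‖ = 1 := by
    rw [he, EuclideanSpace.norm_single, norm_one]
  have hae : ∀ z, α ≤ ⟪a z e, e⟫ := by
    intro z
    have := hD.opa.ell z e
    rwa [hen, Real.one_rpow, mul_one] at this
  have hae' : ∀ z, ⟪a z e, e⟫ ≤ β := by
    intro z
    have h1 := hD.opa.bdd z e
    rw [hen, Real.one_rpow, mul_one] at h1
    calc ⟪a z e, e⟫ ≤ ‖a z e‖ * ‖e‖ := real_inner_le_norm _ _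
      _ ≤ β := by rw [hen, mul_one]; exact h1
  set m : E n → ℝ := fun x => ⟪fderiv ℝ f x (b x (Dt f x e)), e⟫ / ⟪a (f x) e, e⟫ with hm
  have hfd : Measurable fun x => fderiv ℝ f x := measurable_fderiv ℝ f
  have hDt : Measurable fun x => Dt f x e := by
    have h1 : Measurable fun x => Dt f x :=
      (ContinuousLinearMap.adjoint (𝕜 := ℝ) (E := E n) (F := E n)).continuous.measurable.comp hfd
    exact (ContinuousLinearMap.apply ℝ (E n) e).continuous.measurable.comp h1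
  have hbm : Measurable fun x => b x (Dt f x e) :=
    hD.opb.meas.comp (measurable_id.prodMk hDt)
  have hapm : Measurable fun x => fderiv ℝ f x (b x (Dt f x e)) := by
    have h1 : Continuous fun q : (E n →L[ℝ] E n) × E n => q.1 q.2 :=
      isBoundedBilinearMap_apply.continuous
    exact h1.measurable.comp (hfd.prodMk hbm)
  have hmm : Measurable m := by
    refine Measurable.div ?_ ?_
    · exact hapm.inner measurable_const
    · exact (hD.opa.meas.comp (hM.meas.prodMk measurable_const)).inner measurable_const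
  have hinner : ∀ x ξ : E n, ⟪fderiv ℝ f x (b x (Dt f x ξ)), ξ⟫ =
      ⟪b x (Dt f x ξ), Dt f x ξ⟫ := by
    intro x ξ
    rw [Dt, ContinuousLinearMap.adjoint_inner_right]
  have hDtn : ∀ x (ξ : E n), ‖Dt f x ξ‖ ≤ ‖fderiv ℝ f x‖ * ‖ξ‖ := by
    intro x ξ
    have h1 : ‖Dt f x‖ = ‖fderiv ℝ f x‖ :=
      (ContinuousLinearMap.adjoint (𝕜 := ℝ) (E := E n) (F := E n)).norm_map _
    rw [← h1]
    exact (Dt f x).le_opNorm ξ
  refine ⟨m, min c (α' * c ^ p / β), β' / α, ?_⟩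
  refine ⟨by positivity, by positivity, hΩ, hM.meas, hloc, hmm, hdiff, ?_, ?_, ?_, ?_, hED⟩
  · filter_upwards [hdiff] with x hx hxΩ η
    refine le_trans ?_ (hdis' x hxΩ (hx hxΩ) η)
    gcongr
    exact min_le_left _ _
  · filter_upwards [hdiff] with x hx hxΩ
    have h1 := hdis' x hxΩ (hx hxΩ) e
    rw [hen, mul_one] at h1
    have h2 := hD.opb.ell x (Dt f x e)
    have h3 : (c * ‖fderiv ℝ f x‖) ^ p ≤ ‖Dt f x e‖ ^ p :=
      Real.rpow_le_rpow (by positivity) h1 hp0.le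
    rw [Real.mul_rpow hc.le (norm_nonneg _)] at h3
    have h4 : 0 < ⟪a (f x) e, e⟫ := lt_of_lt_of_le hα (hae _)
    show min c (α' * c ^ p / β) * ‖fderiv ℝ f x‖ ^ p ≤
      ⟪fderiv ℝ f x (b x (Dt f x e)), e⟫ / ⟪a (f x) e, e⟫
    rw [hinner, le_div_iff₀ h4]
    calc min c (α' * c ^ p / β) * ‖fderiv ℝ f x‖ ^ p * ⟪a (f x) e, e⟫
        ≤ (α' * c ^ p / β) * ‖fderiv ℝ f x‖ ^ p * β := by
          gcongr
          · exact min_le_right _ _
          · exact hae' _
      _ = α' * (c ^ p * ‖fderiv ℝ f x‖ ^ p) := by field_simp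
      _ ≤ α' * ‖Dt f x e‖ ^ p := by gcongr
      _ ≤ _ := h2
  · refine Eventually.of_forall fun x _ => ?_
    have h4 : 0 < ⟪a (f x) e, e⟫ := lt_of_lt_of_le hα (hae _)
    show ⟪fderiv ℝ f x (b x (Dt f x e)), e⟫ / ⟪a (f x) e, e⟫ ≤
      β' / α * ‖fderiv ℝ f x‖ ^ p
    rw [hinner, div_le_iff₀ h4]
    have h5 := hDtn x e
    rw [hen, mul_one] at h5
    have h6 := hD.opb.bdd x (Dt f x e)
    have h7 : ‖Dt f x e‖ ^ (p - 1) * ‖Dt f x e‖ ≤ ‖fderiv ℝ f x‖ ^ p := by
      by_cases h8 : ‖Dt f x e‖ = 0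
      · rw [h8, mul_zero]
        positivity
      · have h9 : 0 < ‖Dt f x e‖ := lt_of_le_of_ne (norm_nonneg _) (Ne.symm h8)
        calc ‖Dt f x e‖ ^ (p - 1) * ‖Dt f x e‖ = ‖Dt f x e‖ ^ p := by
              rw [← Real.rpow_add_one h9.ne']
              congr 1
              ring
          _ ≤ _ := Real.rpow_le_rpow (norm_nonneg _) h5 hp0.le
    calc ⟪b x (Dt f x e), Dt f x e⟫ ≤ ‖b x (Dt f x e)‖ * ‖Dt f x e‖ := real_inner_le_norm _ _
      _ ≤ β' * ‖Dt f x e‖ ^ (p - 1) * ‖Dt f x e‖ := by gcongr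
      _ = β' * (‖Dt f x e‖ ^ (p - 1) * ‖Dt f x e‖) := by ring
      _ ≤ β' * ‖fderiv ℝ f x‖ ^ p := by gcongr
      _ = β' / α * ‖fderiv ℝ f x‖ ^ p * α := by field_simp
      _ ≤ β' / α * ‖fderiv ℝ f x‖ ^ p * ⟪a (f x) e, e⟫ := by
          gcongr
          exact hae _
  · have h1 := preimage_null hp0 hΩ hM.meas hED (hleb n p a α β hD.opa)
    filter_upwards [hdiff, h1, hleb n p b α' β' hD.opb] with x hx1 hx2 hx3 hxΩ ξ
    have h4 : 0 < ⟪a (f x) e, e⟫ := lt_of_lt_of_le hα (hae _)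
    by_cases hL : fderiv ℝ f x = 0
    · have h5 : m x = 0 := by
        show ⟪fderiv ℝ f x (b x (Dt f x e)), e⟫ / ⟪a (f x) e, e⟫ = 0
        rw [hL]
        simp
      rw [h5, hL, zero_smul]
      rfl
    · obtain ⟨m', hm', h5⟩ := hfroz n p a α β b α' β' hD Ω f hM x c hxΩ hc (hx1 hxΩ) hL
        (hdis' x hxΩ (hx1 hxΩ)) hx3 (hx2 hxΩ hL)
      have h6 : m x = m' := by
        show ⟪fderiv ℝ f x (b x (Dt f x e)), e⟫ / ⟪a (f x) e, e⟫ = m'
        rw [h5 e, real_inner_smul_left, mul_div_assoc, div_self h4.ne', mul_one]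
      rw [h6]
      exact h5 ξ

end Pool.Agent.Lib.MP_abd978_an.UN.H10
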