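import Pool.Agent.Lib.MP_abd978_an.UN.Interfaces

/-!
# Project UNW: TZ
-/

set_option autoImplicit false

open MeasureTheory Metric Set Filter Topology ContDiff
open scoped Gradient RealInnerProductSpace NNReal ENNReal

namespace Pool.Agent.Lib.MP_abd978_an.UN.H10

theorem integral_grad {n : ℕ} {D : Set (E n)} {ψ : E n → ℝ} (h : Test D ψ) :
    ∫ x, ∇ ψ x = 0 := by
  have hint : Integrable (fun x => ∇ ψ x) volume :=
    (continuous_grad h.1).integrable_of_hasCompactSupport (hasCompactSupport_grad h)
  refine ext_inner_left ℝ fun v => ?_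
  rw [← integral_inner hint, inner_zero_right]
  have hψi : Integrable ψ volume := h.1.continuous.integrable_of_hasCompactSupport h.2.1
  have hd : Differentiable ℝ ψ := h.1.differentiable (by simp)
  have hgi : Integrable (fun x => fderiv ℝ ψ x v) volume := by
    have h1 := hint.const_inner v (𝕜 := ℝ)
    refine h1.congr (Eventually.of_forall fun x => ?_)
    show ⟪v, ∇ ψ x⟫ = _
    rw [real_inner_comm, grad_eq, InnerProductSpace.toDual_symm_apply]
  have h1 := integral_mul_fderiv_eq_neg_fderiv_mul_of_integrable (μ := (volume : Measure (E n)))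
    (f := fun _ : E n => (1 : ℝ)) (g := ψ) (v := v) (by simp) (by simpa using hgi)
    (by simpa using hψi) (fun x _ => differentiableAt_const _) (fun x _ => hd x)
  simp only [one_mul, fderiv_fun_const, Pi.zero_apply, ContinuousLinearMap.zero_apply, zero_mul,
    integral_zero, neg_zero] at h1
  rw [← h1]
  refine integral_congr_ae (Eventually.of_forall fun x => ?_)
  show ⟪v, ∇ ψ x⟫ = _
  rw [real_inner_comm, grad_eq, InnerProductSpace.toDual_symm_apply]

theorem tz (hdual : DualStatement) (hosc : OscpStatement) : TzStatement := by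
  intro n p a α β R T Y hn hp hop hTY
  have hn2 : (2 : ℝ) ≤ n := by exact_mod_cast hn
  have hp2 : 2 < p := lt_of_le_of_lt hn2 hp
  have hR : 0 < R := hTY.hR
  obtain ⟨G, hG, hort⟩ := hdual n p a α β (R + 1) R T Y hn hp hop hTY (lt_add_one R)
  have hGY : ∀ᵐ x : E n, x ∈ ball 0 (R + 1) → G x - Y x = 0 :=
    hosc n p a α β (R + 1) (fun x => G x - Y x) hp2 hop (by linarith)
      (hG.2.1.sub hTY.memY) hort
  set μ : Measure (E n) := volume.restrict (ball 0 (R + 1)) with hμ
  haveI : IsFiniteMeasure μ := ⟨by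
    rw [hμ, Measure.restrict_apply_univ]
    exact measure_ball_lt_top⟩
  have h1 : ∫ z, Y z = ∫ z, Y z ∂μ := by
    symm
    refine setIntegral_eq_integral_of_forall_compl_eq_zero fun z hz => ?_
    refine (hTY.supp z ?_).2
    rw [mem_ball_zero_iff] at hz
    push Not at hz
    linarith
  have h2 : ∫ z, Y z ∂μ = ∫ z, G z ∂μ := by
    refine setIntegral_congr_ae measurableSet_ball ?_
    filter_upwards [hGY] with x hx hxb
    exact (sub_eq_zero.1 (hx hxb)).symm
  obtain ⟨-, hGm, ψ, hψ, -, hlim⟩ := hG
  have hp1 : (1 : ℝ≥0∞) ≤ ENNReal.ofReal p := one_le_ofReal (by linarith)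
  have hGμ : MemLp G (ENNReal.ofReal p) μ := hGm.restrict _
  have hGi : Integrable G μ := hGμ.integrable hp1
  have hψi : ∀ i, Integrable (fun x => ∇ (ψ i) x) μ := fun i =>
    ((continuous_grad (hψ i).1).integrable_of_hasCompactSupport
      (hasCompactSupport_grad (hψ i))).restrict
  have h3 : Tendsto (fun i => eLpNorm ((fun x => ∇ (ψ i) x) - G) 1 μ) atTop (𝓝 0) := by
    have h4 : Tendsto (fun i => eLpNorm (fun x => ∇ (ψ i) x - G x) (ENNReal.ofReal p) volume *
        (μ univ) ^ (1 / (1 : ℝ≥0∞).toReal - 1 / (ENNReal.ofReal p).toReal)) atTop (𝓝 0) := by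
      have h5 := ENNReal.Tendsto.mul_const (b := (μ univ) ^
        (1 / (1 : ℝ≥0∞).toReal - 1 / (ENNReal.ofReal p).toReal)) hlim
          (Or.inr (ENNReal.rpow_ne_top_of_nonneg ?_ (measure_ne_top μ univ)))
      · rwa [zero_mul] at h5
      · rw [ENNReal.toReal_ofReal (by linarith), ENNReal.toReal_one, sub_nonneg]
        exact one_div_le_one_div_of_le one_pos (by linarith)
    refine tendsto_of_tendsto_of_tendsto_of_le_of_le tendsto_const_nhds h4 (fun _ => bot_le)
      fun i => ?_
    refine (eLpNorm_le_eLpNorm_mul_rpow_measure_univ hp1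
      ((hψi i).aestronglyMeasurable.sub hGi.aestronglyMeasurable)).trans ?_
    gcongr
    exact eLpNorm_mono_measure _ Measure.restrict_le_self
  have h4 := tendsto_integral_of_L1' G hGi.aestronglyMeasurable (Eventually.of_forall hψi) h3
  have h5 : ∀ i, ∫ x, ∇ (ψ i) x ∂μ = 0 := by
    intro i
    rw [← integral_grad (hψ i)]
    refine setIntegral_eq_integral_of_forall_compl_eq_zero fun z hz => ?_
    exact grad_eq_zero_of_notMem fun h => hz ((hψ i).2.2 h)
  simp only [h5] at h4
  rw [h1, h2]
  exact tendsto_nhds_unique h4 tendsto_const_nhds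

end Pool.Agent.Lib.MP_abd978_an.UN.H10
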