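import Pool.Agent.Lib.MP_abd978_an.UN.Interfaces

/-!
# Project UNW: determinants and norms
-/

set_option autoImplicit false

open MeasureTheory Metric Set Filter Topology ContDiff
open scoped Gradient RealInnerProductSpace NNReal ENNReal

namespace Pool.Agent.Lib.MP_abd978_an.UN.H10

theorem vol_ball_pos (n : ℕ) : 0 < volume.real (ball (0 : E n) 1) :=
  ENNReal.toReal_pos (measure_ball_pos _ _ one_pos).ne' measure_ball_lt_top.ne

theorem vol_closedBall (n : ℕ) (r : ℝ) (hr : 0 ≤ r) :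
    volume.real (closedBall (0 : E n) r) = r ^ n * volume.real (ball (0 : E n) 1) := by
  have h := Measure.addHaar_real_closedBall (volume : Measure (E n)) (0 : E n) hr
  rw [finrank_euclideanSpace_fin] at h
  exact h

theorem vol_ball (n : ℕ) (r : ℝ) (hr : 0 < r) :
    volume.real (ball (0 : E n) r) = r ^ n * volume.real (ball (0 : E n) 1) := by
  have h := Measure.addHaar_ball_of_pos (volume : Measure (E n)) (0 : E n) hr
  rw [finrank_euclideanSpace_fin] at h
  rw [measureReal_def, h, ENNReal.toReal_mul, ENNReal.toReal_ofReal (by positivity)]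
  rfl

theorem abs_det_le {n : ℕ} (L : E n →L[ℝ] E n) : |L.det| ≤ ‖L‖ ^ n := by
  have h1 := Measure.addHaar_image_continuousLinearMap (volume : Measure (E n)) L (ball 0 1)
  have h2 : (L '' ball 0 1) ⊆ closedBall (0 : E n) ‖L‖ := by
    rintro _ ⟨v, hv, rfl⟩
    rw [mem_closedBall_zero_iff]
    rw [mem_ball_zero_iff] at hv
    calc ‖L v‖ ≤ ‖L‖ * ‖v‖ := L.le_opNorm v
      _ ≤ ‖L‖ * 1 := by gcongr
      _ = ‖L‖ := mul_one _
  have h3 : volume.real (L '' ball 0 1) = |L.det| * volume.real (ball (0 : E n) 1) := by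
    rw [measureReal_def, h1, ENNReal.toReal_mul, ENNReal.toReal_ofReal (abs_nonneg _)]
    rfl
  have h4 : volume.real (L '' ball 0 1) ≤ volume.real (closedBall (0 : E n) ‖L‖) :=
    measureReal_mono h2 measure_closedBall_lt_top.ne
  rw [h3, vol_closedBall n _ (norm_nonneg _)] at h4
  exact le_of_mul_le_mul_right h4 (vol_ball_pos n)

theorem det_adjoint {n : ℕ} (L : E n →L[ℝ] E n) :
    (ContinuousLinearMap.adjoint L).det = L.det := by
  have h : ((ContinuousLinearMap.adjoint L : E n →L[ℝ] E n) : E n →ₗ[ℝ] E n) =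
      LinearMap.adjoint (L : E n →ₗ[ℝ] E n) := by
    ext1 x
    rfl
  show LinearMap.det ((ContinuousLinearMap.adjoint L : E n →L[ℝ] E n) : E n →ₗ[ℝ] E n) =
    LinearMap.det (L : E n →ₗ[ℝ] E n)
  rw [h, ← LinearMap.det_toMatrix (EuclideanSpace.basisFun (Fin n) ℝ).toBasis,
    ← LinearMap.det_toMatrix (EuclideanSpace.basisFun (Fin n) ℝ).toBasis]
  rw [LinearMap.toMatrix_adjoint, Matrix.det_conjTranspose]
  simp

theorem bij_of_lower {n : ℕ} {L : E n →L[ℝ] E n} {c : ℝ} (hc : 0 < c)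
    (h : ∀ v, c * ‖v‖ ≤ ‖L v‖) : Function.Bijective L := by
  have hinj : Function.Injective (L : E n →ₗ[ℝ] E n) := by
    intro x y hxy
    have h1 := h (x - y)
    have hxy' : L x = L y := hxy
    rw [map_sub, hxy', sub_self, norm_zero] at h1
    have h2 : ‖x - y‖ ≤ 0 := by
      by_contra hcon
      push Not at hcon
      nlinarith
    exact sub_eq_zero.1 (norm_le_zero_iff.1 h2)
  exact ⟨hinj, LinearMap.surjective_of_injective hinj⟩

theorem pow_le_det {n : ℕ} {L : E n →L[ℝ] E n} {c : ℝ} (hc : 0 < c)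
    (h : ∀ v, c * ‖v‖ ≤ ‖L v‖) : c ^ n ≤ |L.det| := by
  have h1 := Measure.addHaar_image_continuousLinearMap (volume : Measure (E n)) L (ball 0 1)
  have h2 : ball (0 : E n) c ⊆ L '' ball 0 1 := by
    intro y hy
    obtain ⟨v, rfl⟩ := (bij_of_lower hc h).2 y
    refine ⟨v, ?_, rfl⟩
    rw [mem_ball_zero_iff] at hy ⊢
    have h3 := h v
    by_contra hcon
    push Not at hcon
    nlinarith
  have h3 : volume.real (L '' ball 0 1) = |L.det| * volume.real (ball (0 : E n) 1) := by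
    rw [measureReal_def, h1, ENNReal.toReal_mul, ENNReal.toReal_ofReal (abs_nonneg _)]
    rfl
  have h4 : volume.real (ball (0 : E n) c) ≤ volume.real (L '' ball 0 1) := by
    refine measureReal_mono h2 ?_
    rw [h1]
    exact ENNReal.mul_ne_top ENNReal.ofReal_ne_top measure_ball_lt_top.ne
  rw [h3, vol_ball n _ hc] at h4
  exact le_of_mul_le_mul_right h4 (vol_ball_pos n)

/-- a lower bound for the transpose is a lower bound for the map -/
theorem lower_of_adjoint {n : ℕ} {L : E n →L[ℝ] E n} {c : ℝ} (hc : 0 < c)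
    (h : ∀ v, c * ‖v‖ ≤ ‖ContinuousLinearMap.adjoint L v‖) (v : E n) : c * ‖v‖ ≤ ‖L v‖ := by
  obtain ⟨η, hη⟩ := (bij_of_lower hc h).2 v
  by_cases hv : v = 0
  · rw [hv]
    simp
  have hv0 : 0 < ‖v‖ := norm_pos_iff.2 hv
  have h1 : ‖v‖ * ‖v‖ = ⟪L v, η⟫ := by
    rw [← real_inner_self_eq_norm_mul_norm]
    conv_lhs => rw [← hη]
    rw [ContinuousLinearMap.adjoint_inner_left, hη, real_inner_comm]
  have h2 : ⟪L v, η⟫ ≤ ‖L v‖ * ‖η‖ := real_inner_le_norm _ _
  have h3 := h η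
  rw [hη] at h3
  have h4 : c * (‖v‖ * ‖v‖) ≤ ‖L v‖ * ‖v‖ := by
    rw [h1]
    calc c * ⟪L v, η⟫ ≤ c * (‖L v‖ * ‖η‖) := by gcongr
      _ = ‖L v‖ * (c * ‖η‖) := by ring
      _ ≤ ‖L v‖ * ‖v‖ := by gcongr
  rw [← mul_assoc] at h4
  exact le_of_mul_le_mul_right h4 hv0

end Pool.Agent.Lib.MP_abd978_an.UN.H10
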