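import Pool.Agent.Lib.MP_abd978_an.UN.Interfaces

/-!
# Project UNW: DIST
-/

set_option autoImplicit false

open MeasureTheory Metric Set Filter Topology ContDiff
open scoped Gradient RealInnerProductSpace NNReal ENNReal

namespace Pool.Agent.Lib.MP_abd978_an.UN.H10

theorem exists_unit {n : ℕ} {L : E n →L[ℝ] E n} (hL : L ≠ 0) :
    ∃ e : E n, ‖e‖ = 1 ∧ ‖L‖ / 2 ≤ ‖L e‖ := by
  by_contra hcon
  push Not at hcon
  have hLn : 0 < ‖L‖ := norm_pos_iff.2 hL
  have h1 : ‖L‖ ≤ ‖L‖ / 2 := by
    refine L.opNorm_le_bound (by positivity) fun v => ?_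
    by_cases hv : v = 0
    · rw [hv]
      simp
    · have hv0 : 0 < ‖v‖ := norm_pos_iff.2 hv
      have h2 := hcon (‖v‖⁻¹ • v) (by
        rw [norm_smul, norm_inv, norm_norm, inv_mul_cancel₀ hv0.ne'])
      rw [map_smul, norm_smul, norm_inv, norm_norm, inv_mul_lt_iff₀ hv0] at h2
      linarith
  linarith

theorem dist_thm (hqo : QoStatement) : DistStatement := by
  intro n p a α β b α' β' hD
  obtain ⟨C, hC, hq⟩ := hqo n p a α β b α' β' hD
  refine ⟨1 / (2048 * (C + 1)), by positivity, fun Ω f hM x hx hdiff => ?_⟩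
  set L := fderiv ℝ f x with hL
  set c : ℝ := 1 / (2048 * (C + 1)) with hc
  have hc0 : 0 < c := by positivity
  have hc1 : c * (2048 * (C + 1)) = 1 := by
    rw [hc]
    field_simp
  by_cases hL0 : L = 0
  · intro η
    rw [hL0, norm_zero, mul_zero, zero_mul]
    exact norm_nonneg _
  have hLn : 0 < ‖L‖ := norm_pos_iff.2 hL0
  have hunit : ∀ η : E n, ‖η‖ = 1 → c * ‖L‖ ≤ ‖Dt f x η‖ := by
    intro η hη
    have hκ : 0 < c * ‖L‖ := by positivity
    have h1 : ∀ᶠ z in 𝓝 x, ‖f z - f x - L (z - x)‖ ≤ (c * ‖L‖) * ‖z - x‖ :=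
      hdiff.hasFDerivAt.isLittleO.def hκ
    have h2 : ∀ᶠ z in 𝓝 x, z ∈ Ω := hM.isOpen.mem_nhds hx
    obtain ⟨ρ, hρ, hρ'⟩ := Metric.eventually_nhds_iff_ball.1 (h1.and h2)
    set r : ℝ := ρ / 2 with hr
    have hr0 : 0 < r := half_pos hρ
    have hsub : closedBall x r ⊆ ball x ρ := closedBall_subset_ball (half_lt_self hρ)
    obtain ⟨e, he, hLe⟩ := exists_unit hL0
    set z : E n := x + (r / 128) • e with hz
    have hzx : z - x = (r / 128) • e := by rw [hz, add_sub_cancel_left]
    have hzn : ‖z - x‖ = r / 128 := by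
      rw [hzx, norm_smul, he, mul_one, Real.norm_of_nonneg (by positivity)]
    have hzb : z ∈ closedBall x (r / 128) := by
      rw [mem_closedBall, dist_eq_norm, hzn]
    set t : ℝ := ‖L‖ * r * (2 * c) with ht
    have ht0 : 0 < t := by positivity
    set y : E n := f x + t • η with hy
    have hyt : dist (f x) y = t := by
      rw [hy, dist_self_add_right, norm_smul, hη, mul_one, Real.norm_of_nonneg ht0.le]
    have hmem : y ∈ f '' ball x r := by
      by_contra hcon
      have h3 := hq Ω f hM x r y hr0 (fun w hw => (hρ' w (hsub hw)).2) hcon z hzb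
      rw [hyt] at h3
      have h4 : dist (f z) (f x) ≤ dist (f z) y + t := by
        have := dist_triangle (f z) y (f x)
        rwa [dist_comm y, hyt] at this
      have hzr : z ∈ ball x ρ := by
        rw [mem_ball, dist_eq_norm, hzn]
        linarith
      have h5 := (hρ' z hzr).1
      rw [hzn, hzx, map_smul] at h5
      have h6 : ‖(r / 128) • L e‖ ≤ dist (f z) (f x) + c * ‖L‖ * (r / 128) := by
        rw [dist_eq_norm]
        have := norm_sub_norm_le ((r / 128) • L e) (f z - f x)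
        rw [← norm_neg ((r / 128) • L e - (f z - f x)), neg_sub] at this
        linarith
      rw [norm_smul, Real.norm_of_nonneg (by positivity : (0 : ℝ) ≤ r / 128)] at h6
      have h7 : r / 128 * (‖L‖ / 2) ≤ r / 128 * ‖L e‖ := by gcongr
      have h8 : (C + 1) * t = ‖L‖ * r / 1024 := by
        have : (C + 1) * t = ‖L‖ * r * (c * (2048 * (C + 1))) / 1024 := by
          rw [ht]; ring
        rw [this, hc1]
        ring
      have h9 : c ≤ 1 / 2048 := by
        rw [hc]
        apply one_div_le_one_div_of_le (by norm_num)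
        nlinarith
      have h10 : c * ‖L‖ * (r / 128) ≤ 1 / 2048 * (‖L‖ * r / 128) := by
        have : c * ‖L‖ * (r / 128) = c * (‖L‖ * r / 128) := by ring
        rw [this]
        gcongr
      have h11 : 0 < ‖L‖ * r := by positivity
      nlinarith
    obtain ⟨w, hw, hwy⟩ := hmem
    have hwr : ‖w - x‖ < r := by rwa [mem_ball, dist_eq_norm] at hw
    have h3 := (hρ' w (hsub (ball_subset_closedBall hw))).1
    rw [hwy] at h3
    have h4 : y - f x = t • η := by rw [hy, add_sub_cancel_left]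
    rw [h4] at h3
    have h5 : t = ⟪t • η - L (w - x), η⟫ + ⟪w - x, Dt f x η⟫ := by
      rw [Dt, ContinuousLinearMap.adjoint_inner_right, ← inner_add_left, sub_add_cancel,
        real_inner_smul_left, real_inner_self_eq_norm_sq, hη]
      ring
    have h6 : ⟪t • η - L (w - x), η⟫ ≤ c * ‖L‖ * r := by
      calc ⟪t • η - L (w - x), η⟫ ≤ ‖t • η - L (w - x)‖ * ‖η‖ := real_inner_le_norm _ _
        _ ≤ (c * ‖L‖ * ‖w - x‖) * 1 := by
            rw [hη]
            gcongr
        _ ≤ c * ‖L‖ * r := by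
            rw [mul_one]
            gcongr
    have h7 : ⟪w - x, Dt f x η⟫ ≤ r * ‖Dt f x η‖ := by
      calc ⟪w - x, Dt f x η⟫ ≤ ‖w - x‖ * ‖Dt f x η‖ := real_inner_le_norm _ _
        _ ≤ r * ‖Dt f x η‖ := by gcongr
    have h8 : r * (c * ‖L‖) ≤ r * ‖Dt f x η‖ := by
      have : t = 2 * (c * ‖L‖ * r) := by rw [ht]; ring
      linarith
    exact le_of_mul_le_mul_left h8 hr0
  intro η
  by_cases hη : η = 0
  · rw [hη]
    simp
  have hη0 : 0 < ‖η‖ := norm_pos_iff.2 hη
  have h1 := hunit (‖η‖⁻¹ • η) (by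
    rw [norm_smul, norm_inv, norm_norm, inv_mul_cancel₀ hη0.ne'])
  rw [map_smul, norm_smul, norm_inv, norm_norm, le_inv_mul_iff₀ hη0] at h1
  linarith

end Pool.Agent.Lib.MP_abd978_an.UN.H10
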