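import Pool.Agent.Lib.MP_abd978_an.UN.H10.Lin

/-!
# Project UNW: almost everywhere statements
-/

set_option autoImplicit false

open MeasureTheory Metric Set Filter Topology ContDiff
open scoped Gradient RealInnerProductSpace NNReal ENNReal

namespace Pool.Agent.Lib.MP_abd978_an.UN.H10

/-- Rademacher's theorem for locally Lipschitz mappings -/
theorem ae_diff {n : ℕ} {F : Type} [NormedAddCommGroup F] [NormedSpace ℝ F]
    [FiniteDimensional ℝ F] {Ω : Set (E n)} {f : E n → F} (hf : LocLip Ω f) :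
    ∀ᵐ x : E n, x ∈ Ω → DifferentiableAt ℝ f x := by
  rw [ae_iff]
  refine measure_null_of_locally_null _ fun x hx => ?_
  have hxΩ : x ∈ Ω := by
    by_contra h
    exact hx fun h1 => absurd h1 h
  obtain ⟨K, U, hU, hK⟩ := hf x hxΩ
  have h1 := (hK.mono interior_subset).ae_differentiableWithinAt_of_mem
    (μ := (volume : Measure (E n)))
  refine ⟨interior U ∩ {a | ¬(a ∈ Ω → DifferentiableAt ℝ f a)}, ?_, ?_⟩
  · exact inter_mem (mem_nhdsWithin_of_mem_nhds (interior_mem_nhds.2 hU)) self_mem_nhdsWithin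
  · refine measure_mono_null ?_ (ae_iff.1 h1)
    rintro y ⟨hy, hy'⟩ h2
    exact hy' fun _ => (h2 hy).differentiableAt (isOpen_interior.mem_nhds hy)

/-- from compact sets to open sets -/
theorem ae_of_compacts {n : ℕ} {Ω : Set (E n)} (hΩ : IsOpen Ω) {P : E n → Prop}
    (h : ∀ K : Set (E n), IsCompact K → K ⊆ Ω → ∀ᵐ x : E n, x ∈ K → P x) :
    ∀ᵐ x : E n, x ∈ Ω → P x := by
  rw [ae_iff]
  refine measure_null_of_locally_null _ fun x hx => ?_
  have hxΩ : x ∈ Ω := by
    by_contra h1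
    exact hx fun h2 => absurd h2 h1
  obtain ⟨r, hr, hrΩ⟩ := nhds_basis_closedBall.mem_iff.1 (hΩ.mem_nhds hxΩ)
  have h1 := h _ (isCompact_closedBall x r) hrΩ
  refine ⟨ball x r ∩ {a | ¬(a ∈ Ω → P a)}, ?_, ?_⟩
  · exact inter_mem (mem_nhdsWithin_of_mem_nhds (ball_mem_nhds x hr)) self_mem_nhdsWithin
  · refine measure_mono_null ?_ (ae_iff.1 h1)
    rintro y ⟨hy, hy'⟩ h2
    exact hy' fun _ => h2 (ball_subset_closedBall hy)

theorem measurableSet_diff {n : ℕ} (f : E n → E n) :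
    MeasurableSet {x | DifferentiableAt ℝ f x} := measurableSet_of_differentiableAt ℝ f

/-- preimages of null sets -/
theorem preimage_null {n : ℕ} {p : ℝ} (hp : 0 < p) {Ω : Set (E n)} (hΩ : IsOpen Ω)
    {f : E n → E n} (hf : Measurable f)
    (hed : ∀ K : Set (E n), IsCompact K → K ⊆ Ω → ∃ C' : ℝ≥0, ∀ g : E n → ℝ≥0∞, Measurable g →
      ∫⁻ x in K, g (f x) * ENNReal.ofReal (‖fderiv ℝ f x‖ ^ p) ≤ C' * ∫⁻ z, g z)
    {P : E n → Prop} (hP : ∀ᵐ z : E n, P z) :
    ∀ᵐ x : E n, x ∈ Ω → fderiv ℝ f x ≠ 0 → P (f x) := by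
  refine ae_of_compacts hΩ fun K hK hKΩ => ?_
  obtain ⟨C', hC'⟩ := hed K hK hKΩ
  set Z := toMeasurable volume {z : E n | ¬ P z} with hZ
  have hZm : MeasurableSet Z := measurableSet_toMeasurable _ _
  have hZ0 : volume Z = 0 := by
    rw [hZ, measure_toMeasurable]
    exact ae_iff.1 hP
  have h1 := hC' (Z.indicator fun _ => 1) (measurable_const.indicator hZm)
  rw [lintegral_indicator_const hZm, hZ0, mul_zero, mul_zero, nonpos_iff_eq_zero] at h1
  have hmeas : Measurable fun x => Z.indicator (fun _ => (1 : ℝ≥0∞)) (f x) *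
      ENNReal.ofReal (‖fderiv ℝ f x‖ ^ p) :=
    ((measurable_const.indicator hZm).comp hf).mul
      (ENNReal.measurable_ofReal.comp ((measurable_fderiv ℝ f).norm.pow_const p))
  rw [lintegral_eq_zero_iff hmeas] at h1
  have h2 := (ae_restrict_iff' hK.measurableSet).1 h1
  filter_upwards [h2] with x hx hxK hne
  have h3 := hx hxK
  by_contra hcon
  have h4 : f x ∈ Z := subset_toMeasurable _ _ hcon
  simp only [Pi.zero_apply, mul_eq_zero, indicator_of_mem h4, one_ne_zero, false_or,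
    ENNReal.ofReal_eq_zero] at h3
  have h5 : 0 < ‖fderiv ℝ f x‖ ^ p := Real.rpow_pos_of_pos (norm_pos_iff.2 hne) p
  linarith

end Pool.Agent.Lib.MP_abd978_an.UN.H10
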